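import Pool.Agent.Q218.ZO.Lil

/-!
Events with summable correlations occur infinitely often; non-random constants.
-/

set_option autoImplicit false

namespace Pool.Agent.Q218.LZ

open MeasureTheory Filter Topology Finset
open Pool.Agent.Q218.ZO (LS LS_mono)

section gen

variable {Ω : Type*} [MeasurableSpace Ω] (P : Measure Ω) [IsProbabilityMeasure P]

omit [IsProbabilityMeasure P] in
theorem LS_meas' {φ : ℕ → ℝ} {U : Ω → ℕ → ℝ} (hU : ∀ n, Measurable fun ω => U ω n) (q : ℝ) :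
    MeasurableSet {ω | LS φ (U ω) q} := by
  unfold LS
  simp only [eventually_atTop, Set.ofPred_forall]
  refine MeasurableSet.iInter fun k => ?_
  simp only [Set.ofPred_exists, Set.ofPred_forall]
  refine MeasurableSet.iUnion fun N => MeasurableSet.iInter fun n => MeasurableSet.iInter fun _ => ?_
  exact measurableSet_le (hU n) measurable_const

/-- The constant in the limsup is not random. -/
theorem const_gen {φ : ℕ → ℝ} (hφ : ∀ᶠ n in atTop, 0 < φ n) {U : Ω → ℕ → ℝ}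
    (h01 : ∀ q : ℝ, P {ω | LS φ (U ω) q} = 0 ∨ P {ω | LS φ (U ω) q} = 1)
    (hm : ∀ n, Measurable fun ω => U ω n) {c C : ℝ}
    (hC : ∀ᵐ ω ∂P, ∀ᶠ n in atTop, U ω n ≤ C * φ n)
    (hc : ∀ᵐ ω ∂P, ∃ᶠ n in atTop, c * φ n ≤ U ω n) :
    ∃ K : ℝ, c ≤ K ∧ K ≤ C ∧ ∀ᵐ ω ∂P, ∀ ε : ℝ, 0 < ε →
      (∀ᶠ n in atTop, U ω n ≤ (K + ε) * φ n) ∧ ∃ᶠ n in atTop, (K - ε) * φ n ≤ U ω n := by
  have h1 : P {ω | LS φ (U ω) C} = 1 := by
    rw [← prob_compl_eq_zero_iff (LS_meas' hm C)]
    have : ∀ᵐ ω ∂P, LS φ (U ω) C := by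
      filter_upwards [hC] with ω hω k
      filter_upwards [hω, hφ] with n g1 g2
      refine g1.trans ?_
      apply mul_le_mul_of_nonneg_right _ g2.le
      have : 0 < 1 / ((k : ℝ) + 1) := by positivity
      linarith
    exact this
  have h0 : ∀ q, q < c → P {ω | LS φ (U ω) q} = 0 := by
    intro q hq
    have : ∀ᵐ ω ∂P, ¬ LS φ (U ω) q := by
      filter_upwards [hc] with ω hω hLS
      obtain ⟨k, hk⟩ := exists_nat_one_div_lt (sub_pos.2 hq)
      apply hω
      filter_upwards [hLS k, hφ] with n g1 g2 g3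
      have : (q + 1 / ((k : ℝ) + 1)) * φ n < c * φ n :=
        mul_lt_mul_of_pos_right (by linarith) g2
      linarith
    rw [ae_iff] at this
    simpa using this
  set S : Set ℝ := {q | P {ω | LS φ (U ω) q} = 1} with hS
  have hne : S.Nonempty := ⟨C, h1⟩
  have hbd : BddBelow S := by
    refine ⟨c, fun q hq => ?_⟩
    by_contra hcon
    push Not at hcon
    have h2 : P {ω | LS φ (U ω) q} = 1 := hq
    rw [h0 q hcon] at h2
    exact zero_ne_one h2
  refine ⟨sInf S, le_csInf hne fun q hq => ?_, csInf_le hbd h1, ?_⟩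
  · by_contra hcon
    push Not at hcon
    have h2 : P {ω | LS φ (U ω) q} = 1 := hq
    rw [h0 q hcon] at h2
    exact zero_ne_one h2
  have hup : ∀ j : ℕ, ∀ᵐ ω ∂P, LS φ (U ω) (sInf S + 1 / ((j : ℝ) + 1)) := by
    intro j
    have hj : sInf S < sInf S + 1 / ((j : ℝ) + 1) := by
      have : 0 < 1 / ((j : ℝ) + 1) := by positivity
      linarith
    obtain ⟨q, hq, hq2⟩ := exists_lt_of_csInf_lt hne hj
    have h2 : P {ω | LS φ (U ω) q} = 1 := hq
    rw [← prob_compl_eq_zero_iff (LS_meas' hm q)] at h2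
    have h3 : ∀ᵐ ω ∂P, LS φ (U ω) q := h2
    filter_upwards [h3] with ω hω
    exact LS_mono hφ hq2.le hω
  have hlow : ∀ j : ℕ, ∀ᵐ ω ∂P, ¬ LS φ (U ω) (sInf S - 1 / ((j : ℝ) + 1)) := by
    intro j
    have h2 : P {ω | LS φ (U ω) (sInf S - 1 / ((j : ℝ) + 1))} = 0 := by
      rcases h01 (sInf S - 1 / ((j : ℝ) + 1)) with h | h
      · exact h
      · exfalso
        have h3 := csInf_le hbd (show sInf S - 1 / ((j : ℝ) + 1) ∈ S from h)
        have : 0 < 1 / ((j : ℝ) + 1) := by positivity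
        linarith
    rw [ae_iff]
    simpa using h2
  filter_upwards [ae_all_iff.2 hup, ae_all_iff.2 hlow] with ω g1 g2 ε hε
  constructor
  · obtain ⟨j, hj⟩ := exists_nat_one_div_lt (show 0 < ε / 2 by positivity)
    filter_upwards [g1 j j, hφ] with n h3 h4
    refine h3.trans ?_
    apply mul_le_mul_of_nonneg_right _ h4.le
    linarith
  · obtain ⟨j, hj⟩ := exists_nat_one_div_lt hε
    have h3 := g2 j
    unfold LS at h3
    push Not at h3
    obtain ⟨k, hk⟩ := h3
    refine (hk.and_eventually hφ).mono fun n hn => ?_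
    refine le_trans ?_ hn.1.le
    apply mul_le_mul_of_nonneg_right _ hn.2.le
    have : 0 < 1 / ((k : ℝ) + 1) := by positivity
    linarith


/-- **Second moment method.** -/
theorem io_abs {g : ℕ → Ω → ℝ} (mg : ∀ k, Measurable (g k)) (g0 : ∀ k ω, 0 ≤ g k ω)
    (g1 : ∀ k ω, g k ω ≤ 1) {C r : ℝ} (hC : 0 ≤ C) (hr : 0 < r) (hr1 : r < 1) {k0 : ℕ} (hk0 : 0 < k0)
    (hE : ∀ k, k0 ≤ k → (k : ℝ) ^ (-(1/4) : ℝ) ≤ ∫ ω, g k ω ∂P)
    (hcov : ∀ j k : ℕ, k0 ≤ j → j < k → |∫ ω, g j ω * g k ω ∂P - (∫ ω, g j ω ∂P) *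
      ∫ ω, g k ω ∂P| ≤ C * (k : ℝ) ^ (1/8 : ℝ) * r ^ (k - j)) :
    ∀ᵐ ω ∂P, ∃ᶠ k in atTop, 0 < g k ω := by
  set e : ℕ → ℝ := fun k => ∫ ω, g k ω ∂P with he
  have e0 : ∀ k, 0 ≤ e k := fun k => integral_nonneg (g0 k)
  have ig : ∀ k, Integrable (g k) P := fun k =>
    Integrable.of_bound (mg k).aestronglyMeasurable 1 (Eventually.of_forall fun ω => by
      rw [Real.norm_eq_abs, abs_of_nonneg (g0 k ω)]; exact g1 k ω)
  have igg : ∀ j k, Integrable (fun ω => g j ω * g k ω) P := fun j k =>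
    Integrable.of_bound ((mg j).mul (mg k)).aestronglyMeasurable 1 (Eventually.of_forall fun ω => by
      rw [Real.norm_eq_abs, abs_of_nonneg (mul_nonneg (g0 j ω) (g0 k ω))]
      exact mul_le_one₀ (g1 j ω) (g0 k ω) (g1 k ω))
  have e1 : ∀ k, e k ≤ 1 := fun k => by
    calc e k ≤ ∫ _ω, (1 : ℝ) ∂P := integral_mono (ig k) (integrable_const _) (g1 k)
      _ = 1 := by simp
  -- the centred sums
  set X : ℕ → Ω → ℝ := fun k ω => g k ω - e k with hX
  have mX : ∀ k, Measurable (X k) := fun k => (mg k).sub_const _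
  have X1 : ∀ k ω, |X k ω| ≤ 1 := by
    intro k ω
    have h1 := g0 k ω
    have h2 := g1 k ω
    have h3 := e0 k
    have h4 := e1 k
    show |g k ω - e k| ≤ 1
    rw [abs_le]
    constructor <;> linarith
  have iXX : ∀ j k, Integrable (fun ω => X j ω * X k ω) P := fun j k =>
    Integrable.of_bound ((mX j).mul (mX k)).aestronglyMeasurable 1 (Eventually.of_forall fun ω => by
      rw [Real.norm_eq_abs, abs_mul]
      exact mul_le_one₀ (X1 j ω) (abs_nonneg _) (X1 k ω))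
  have cX : ∀ j k, ∫ ω, X j ω * X k ω ∂P = ∫ ω, g j ω * g k ω ∂P - e j * e k := by
    intro j k
    have h1 : ∀ ω, X j ω * X k ω = (g j ω * g k ω - e k * g j ω) - (e j * g k ω - e j * e k) := by
      intro ω
      show (g j ω - e j) * (g k ω - e k) = _
      ring
    have j1 : Integrable (fun ω => g j ω * g k ω - e k * g j ω) P := (igg j k).sub ((ig j).const_mul _)
    have j2 : Integrable (fun ω => e j * g k ω - e j * e k) P :=
      ((ig k).const_mul _).sub (integrable_const _)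
    rw [integral_congr_ae (Eventually.of_forall h1), integral_sub j1 j2,
      integral_sub (igg j k) ((ig j).const_mul _), integral_sub ((ig k).const_mul _)
        (integrable_const _), integral_const_mul, integral_const_mul]
    simp only [integral_const, probReal_univ, smul_eq_mul, one_mul]
    show _ - e k * e j - (e j * e k - e j * e k) = _
    ring
  set S : ℕ → Ω → ℝ := fun N ω => ∑ k ∈ Ico k0 N, X k ω with hS
  have mS : ∀ N, Measurable (S N) := fun N => Finset.measurable_sum _ fun k _ => mX k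
  have hSb : ∀ N ω, |S N ω| ≤ N := by
    intro N ω
    refine (Finset.abs_sum_le_sum_abs _ _).trans ?_
    refine (Finset.sum_le_sum fun k _ => X1 k ω).trans ?_
    rw [Finset.sum_const, Nat.card_Ico, nsmul_eq_mul, mul_one]
    exact_mod_cast Nat.sub_le N k0
  have iS2 : ∀ N, Integrable (fun ω => S N ω ^ 2) P := fun N =>
    Integrable.of_bound ((mS N).pow_const 2).aestronglyMeasurable ((N : ℝ) ^ 2)
      (Eventually.of_forall fun ω => by
        rw [Real.norm_eq_abs, abs_pow]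
        exact pow_le_pow_left₀ (abs_nonneg _) (hSb N ω) 2)
  set C' : ℝ := 2 * C / (1 - r) + 1 with hC'
  have hr2 : 0 < 1 - r := by linarith
  have hC'0 : 0 < C' := by positivity
  have hvar : ∀ N, k0 ≤ N → ∫ ω, S N ω ^ 2 ∂P ≤ C' * N * ((N : ℝ) + 1) ^ (1/8 : ℝ) := by
    intro N hN
    induction N, hN using Nat.le_induction with
    | base =>
      have : ∀ ω, S k0 ω ^ 2 = 0 := by intro ω; simp [hS]
      simp only [this, integral_zero]
      positivity
    | succ N hN ih =>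
      have hsucc : ∀ ω, S (N + 1) ω = S N ω + X N ω := fun ω => Finset.sum_Ico_succ_top hN _
      have h1 : ∀ ω, S (N + 1) ω ^ 2 = S N ω ^ 2 + 2 * (∑ j ∈ Ico k0 N, X j ω * X N ω) +
          X N ω * X N ω := by
        intro ω
        rw [hsucc]
        have : ∑ j ∈ Ico k0 N, X j ω * X N ω = S N ω * X N ω := by
          show _ = (∑ k ∈ Ico k0 N, X k ω) * _
          rw [Finset.sum_mul]
        rw [this]
        ring
      have i1 : Integrable (fun ω => ∑ j ∈ Ico k0 N, X j ω * X N ω) P :=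
        integrable_finsetSum _ fun j _ => iXX j N
      have i2 : Integrable (fun ω => 2 * (∑ j ∈ Ico k0 N, X j ω * X N ω)) P := i1.const_mul 2
      have i3 : Integrable (fun ω => S N ω ^ 2 + 2 * (∑ j ∈ Ico k0 N, X j ω * X N ω)) P :=
        (iS2 N).add i2
      have h2 : ∫ ω, S (N + 1) ω ^ 2 ∂P = ∫ ω, S N ω ^ 2 ∂P +
          2 * (∑ j ∈ Ico k0 N, ∫ ω, X j ω * X N ω ∂P) + ∫ ω, X N ω * X N ω ∂P := by
        rw [integral_congr_ae (Eventually.of_forall h1), integral_add i3 (iXX N N),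
          integral_add (iS2 N) i2, integral_const_mul, integral_finsetSum _ fun j _ => iXX j N]
      have h3 : ∑ j ∈ Ico k0 N, ∫ ω, X j ω * X N ω ∂P ≤ C * (N : ℝ) ^ (1/8 : ℝ) / (1 - r) := by
        have h4 : ∑ j ∈ Ico k0 N, ∫ ω, X j ω * X N ω ∂P ≤
            ∑ j ∈ Ico k0 N, C * (N : ℝ) ^ (1/8 : ℝ) * r ^ (N - j) := by
          apply Finset.sum_le_sum
          intro j hj
          obtain ⟨g2, g3⟩ := Finset.mem_Ico.1 hj
          rw [cX]
          exact (le_abs_self _).trans (hcov j N g2 g3)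
        refine h4.trans ?_
        rw [← Finset.mul_sum, div_eq_mul_inv]
        apply mul_le_mul_of_nonneg_left _ (by positivity)
        have h5 : ∑ j ∈ Ico k0 N, r ^ (N - j) ≤ ∑ i ∈ range (N + 1), r ^ i := by
          rw [Finset.sum_bij_ne_zero (s := Ico k0 N) (t := (Ico k0 N).image (fun j => N - j))
            (g := fun i => r ^ i) (fun j _ _ => N - j)
            (fun j hj _ => Finset.mem_image_of_mem _ hj)
            (fun j hj _ j' hj' _ h => by
              have := (Finset.mem_Ico.1 hj).2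
              have := (Finset.mem_Ico.1 hj').2
              omega)
            (fun i hi _ => by
              obtain ⟨j, hj, rfl⟩ := Finset.mem_image.1 hi
              exact ⟨j, hj, by positivity, rfl⟩)
            (fun j _ _ => rfl)]
          apply Finset.sum_le_sum_of_subset_of_nonneg
          · intro i hi
            obtain ⟨j, hj, rfl⟩ := Finset.mem_image.1 hi
            rw [Finset.mem_range]
            omega
          · intro i _ _
            positivity
        refine h5.trans ?_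
        have h6 : ∑ i ∈ range (N + 1), r ^ i ≤ ∑' i : ℕ, r ^ i :=
          (summable_geometric_of_lt_one hr.le hr1).sum_le_tsum _ fun i _ => by positivity
        rwa [tsum_geometric_of_lt_one hr.le hr1] at h6
      have h4 : ∫ ω, X N ω * X N ω ∂P ≤ 1 := by
        calc ∫ ω, X N ω * X N ω ∂P ≤ ∫ _ω, (1 : ℝ) ∂P := by
              apply integral_mono (iXX N N) (integrable_const _)
              intro ω
              show X N ω * X N ω ≤ 1
              have h5 : |X N ω * X N ω| ≤ 1 := by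
                rw [abs_mul]
                exact mul_le_one₀ (X1 N ω) (abs_nonneg _) (X1 N ω)
              exact (le_abs_self _).trans h5
          _ = 1 := by simp
      rw [h2]
      have hN1 : (N : ℝ) ^ (1/8 : ℝ) ≤ ((N : ℝ) + 1 + 1) ^ (1/8 : ℝ) :=
        Real.rpow_le_rpow (by positivity) (by linarith) (by norm_num)
      have hN2 : ((N : ℝ) + 1) ^ (1/8 : ℝ) ≤ ((N : ℝ) + 1 + 1) ^ (1/8 : ℝ) :=
        Real.rpow_le_rpow (by positivity) (by linarith) (by norm_num)
      have hN3 : 1 ≤ ((N : ℝ) + 1 + 1) ^ (1/8 : ℝ) := by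
        apply Real.one_le_rpow _ (by norm_num)
        have : (0 : ℝ) ≤ N := by positivity
        linarith
      have h5 : 2 * (C * (N : ℝ) ^ (1/8 : ℝ) / (1 - r)) + 1 ≤ C' * ((N : ℝ) + 1 + 1) ^ (1/8 : ℝ) := by
        have h6 : 2 * (C * (N : ℝ) ^ (1/8 : ℝ) / (1 - r)) ≤
            2 * C / (1 - r) * ((N : ℝ) + 1 + 1) ^ (1/8 : ℝ) := by
          calc 2 * (C * (N : ℝ) ^ (1/8 : ℝ) / (1 - r)) = 2 * C / (1 - r) * (N : ℝ) ^ (1/8 : ℝ) := by ring
            _ ≤ _ := mul_le_mul_of_nonneg_left hN1 (by positivity)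
        rw [hC', add_mul, one_mul]
        linarith
      have h6 : C' * N * ((N : ℝ) + 1) ^ (1/8 : ℝ) ≤ C' * N * ((N : ℝ) + 1 + 1) ^ (1/8 : ℝ) :=
        mul_le_mul_of_nonneg_left hN2 (by positivity)
      push_cast
      have h7 : C' * ((N : ℝ) + 1) * ((N : ℝ) + 1 + 1) ^ (1/8 : ℝ) =
          C' * N * ((N : ℝ) + 1 + 1) ^ (1/8 : ℝ) + C' * ((N : ℝ) + 1 + 1) ^ (1/8 : ℝ) := by ring
      rw [h7]
      linarith
  -- the means
  set m : ℕ → ℝ := fun N => ∑ k ∈ Ico k0 N, e k with hm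
  have hmge : ∀ N, 2 * k0 + 2 ≤ N → (N : ℝ) ^ (3/4 : ℝ) / 2 ≤ m N := by
    intro N hN
    have hN0 : (0 : ℝ) < N := by
      have : 0 < N := by omega
      exact_mod_cast this
    have h1 : ∑ k ∈ Ico k0 N, (N : ℝ) ^ (-(1/4) : ℝ) ≤ m N := by
      apply Finset.sum_le_sum
      intro k hk
      obtain ⟨h2, h3⟩ := Finset.mem_Ico.1 hk
      have hk0' : (0 : ℝ) < k := by exact_mod_cast (lt_of_lt_of_le hk0 h2)
      refine le_trans ?_ (hE k h2)
      apply Real.rpow_le_rpow_of_nonpos hk0' _ (by norm_num)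
      exact_mod_cast h3.le
    rw [Finset.sum_const, Nat.card_Ico, nsmul_eq_mul] at h1
    refine le_trans ?_ h1
    have h2 : (N : ℝ) / 2 ≤ ((N - k0 : ℕ) : ℝ) := by
      rw [Nat.cast_sub (by omega)]
      have : (2 : ℝ) * k0 + 2 ≤ N := by exact_mod_cast hN
      linarith
    have h3 : (N : ℝ) ^ (3/4 : ℝ) = N * (N : ℝ) ^ (-(1/4) : ℝ) := by
      nth_rewrite 2 [← Real.rpow_one (N : ℝ)]
      rw [← Real.rpow_add hN0]
      norm_num
    rw [h3]
    calc (N : ℝ) * (N : ℝ) ^ (-(1/4) : ℝ) / 2 = (N : ℝ) / 2 * (N : ℝ) ^ (-(1/4) : ℝ) := by ring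
      _ ≤ _ := mul_le_mul_of_nonneg_right h2 (by positivity)
  have hA : ∀ M : ℕ, P {ω | ∀ k, M ≤ k → g k ω = 0} = 0 := by
    intro M
    have mA : MeasurableSet {ω | ∀ k, M ≤ k → g k ω = 0} := by
      simp only [Set.ofPred_forall]
      exact MeasurableSet.iInter fun k => MeasurableSet.iInter fun _ =>
        measurableSet_eq_fun (mg k) measurable_const
    rw [← measureReal_eq_zero_iff]
    apply le_antisymm _ measureReal_nonneg
    have hlim : Tendsto (fun N : ℕ => (32 * C') * (N : ℝ) ^ (-(3/8) : ℝ)) atTop (𝓝 0) := by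
      have h1 : Tendsto (fun N : ℕ => (N : ℝ) ^ (-(3/8) : ℝ)) atTop (𝓝 0) :=
        (tendsto_rpow_neg_atTop (by norm_num : (0 : ℝ) < 3/8)).comp tendsto_natCast_atTop_atTop
      simpa using h1.const_mul (32 * C')
    have hbig : ∀ᶠ N : ℕ in atTop, (4 * (M : ℝ)) ≤ (N : ℝ) ^ (3/4 : ℝ) :=
      ((tendsto_rpow_atTop (by norm_num : (0 : ℝ) < 3/4)).comp
        tendsto_natCast_atTop_atTop).eventually_ge_atTop _
    refine ge_of_tendsto hlim ?_
    filter_upwards [hbig, eventually_ge_atTop (2 * k0 + 2)] with N hN1 hN2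
    have hN0 : (0 : ℝ) < N := by
      have : 0 < N := by omega
      exact_mod_cast this
    have hm1 := hmge N hN2
    have hsub : {ω | ∀ k, M ≤ k → g k ω = 0} ⊆ {ω | (N : ℝ) ^ (3/2 : ℝ) / 16 ≤ S N ω ^ 2} := by
      intro ω hω
      have h1 : ∑ k ∈ Ico k0 N, g k ω ≤ M := by
        have h2 : ∑ k ∈ Ico k0 N, g k ω ≤ ∑ k ∈ range M, (1 : ℝ) := by
          calc ∑ k ∈ Ico k0 N, g k ω ≤ ∑ k ∈ (Ico k0 N).filter (· < M), g k ω := by
                rw [Finset.sum_filter]
                apply Finset.sum_le_sum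
                intro k _
                split_ifs with h
                · exact le_rfl
                · rw [hω k (not_lt.1 h)]
            _ ≤ ∑ k ∈ (Ico k0 N).filter (· < M), (1 : ℝ) := Finset.sum_le_sum fun k _ => g1 k ω
            _ ≤ ∑ k ∈ range M, (1 : ℝ) := by
                apply Finset.sum_le_sum_of_subset_of_nonneg
                · intro k hk
                  exact Finset.mem_range.2 (Finset.mem_filter.1 hk).2
                · intros; norm_num
        simpa using h2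
      have h3 : S N ω = ∑ k ∈ Ico k0 N, g k ω - m N := by
        show ∑ k ∈ Ico k0 N, (g k ω - e k) = _
        rw [Finset.sum_sub_distrib]
      have h4 : S N ω ≤ -((N : ℝ) ^ (3/4 : ℝ) / 4) := by
        rw [h3]
        linarith
      show (N : ℝ) ^ (3/2 : ℝ) / 16 ≤ S N ω ^ 2
      have h5 : (N : ℝ) ^ (3/2 : ℝ) = ((N : ℝ) ^ (3/4 : ℝ)) ^ 2 := by
        rw [← Real.rpow_natCast, ← Real.rpow_mul hN0.le]
        norm_num
      rw [h5]
      have h6 : 0 ≤ (N : ℝ) ^ (3/4 : ℝ) := by positivity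
      nlinarith
    have h2 : P.real {ω | ∀ k, M ≤ k → g k ω = 0} ≤
        P.real {ω | (N : ℝ) ^ (3/2 : ℝ) / 16 ≤ S N ω ^ 2} := measureReal_mono hsub
    have h3 := mul_meas_ge_le_integral_of_nonneg (μ := P) (f := fun ω => S N ω ^ 2)
      (Eventually.of_forall fun ω => sq_nonneg _) (iS2 N) ((N : ℝ) ^ (3/2 : ℝ) / 16)
    have h4 := hvar N (by omega)
    have h5 : C' * N * ((N : ℝ) + 1) ^ (1/8 : ℝ) ≤ 2 * C' * (N : ℝ) ^ (9/8 : ℝ) := by
      have h6 : ((N : ℝ) + 1) ^ (1/8 : ℝ) ≤ 2 * (N : ℝ) ^ (1/8 : ℝ) := by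
        have h7 : (N : ℝ) + 1 ≤ 2 * N := by
          have : (1 : ℝ) ≤ N := by
            have : 1 ≤ N := by omega
            exact_mod_cast this
          linarith
        calc ((N : ℝ) + 1) ^ (1/8 : ℝ) ≤ (2 * (N : ℝ)) ^ (1/8 : ℝ) :=
              Real.rpow_le_rpow (by positivity) h7 (by norm_num)
          _ = 2 ^ (1/8 : ℝ) * (N : ℝ) ^ (1/8 : ℝ) := Real.mul_rpow (by norm_num) hN0.le
          _ ≤ 2 * (N : ℝ) ^ (1/8 : ℝ) := by
              apply mul_le_mul_of_nonneg_right _ (by positivity)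
              calc (2 : ℝ) ^ (1/8 : ℝ) ≤ 2 ^ (1 : ℝ) :=
                    Real.rpow_le_rpow_of_exponent_le (by norm_num) (by norm_num)
                _ = 2 := Real.rpow_one 2
      have h8 : (N : ℝ) ^ (9/8 : ℝ) = N * (N : ℝ) ^ (1/8 : ℝ) := by
        nth_rewrite 2 [← Real.rpow_one (N : ℝ)]
        rw [← Real.rpow_add hN0]
        norm_num
      rw [h8]
      calc C' * N * ((N : ℝ) + 1) ^ (1/8 : ℝ) ≤ C' * N * (2 * (N : ℝ) ^ (1/8 : ℝ)) :=
            mul_le_mul_of_nonneg_left h6 (by positivity)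
        _ = _ := by ring
    have h9 : (N : ℝ) ^ (3/2 : ℝ) / 16 * P.real {ω | (N : ℝ) ^ (3/2 : ℝ) / 16 ≤ S N ω ^ 2} ≤
        2 * C' * (N : ℝ) ^ (9/8 : ℝ) := h3.trans (h4.trans h5)
    have h10 : (N : ℝ) ^ (9/8 : ℝ) = (N : ℝ) ^ (3/2 : ℝ) * (N : ℝ) ^ (-(3/8) : ℝ) := by
      rw [← Real.rpow_add hN0]
      norm_num
    rw [h10] at h9
    have h11 : 0 < (N : ℝ) ^ (3/2 : ℝ) := by positivity
    have h12 : (N : ℝ) ^ (3/2 : ℝ) * P.real {ω | (N : ℝ) ^ (3/2 : ℝ) / 16 ≤ S N ω ^ 2} ≤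
        (N : ℝ) ^ (3/2 : ℝ) * ((32 * C') * (N : ℝ) ^ (-(3/8) : ℝ)) := by linarith
    exact h2.trans (le_of_mul_le_mul_left h12 h11)
  have hAll : ∀ᵐ ω ∂P, ∀ M : ℕ, ¬ ∀ k, M ≤ k → g k ω = 0 := by
    rw [ae_all_iff]
    intro M
    rw [ae_iff]
    simpa using hA M
  filter_upwards [hAll] with ω hω
  rw [frequently_atTop]
  intro M
  have h1 := hω M
  push Not at h1
  obtain ⟨k, hk, hk2⟩ := h1
  exact ⟨k, hk, lt_of_le_of_ne (g0 k ω) (Ne.symm hk2)⟩

end gen

end Pool.Agent.Q218.LZ
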