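import Pool.Agent.Q218.LZ.Lil0

/-!
The laws of the iterated logarithm at the starting point in continuous time.
-/

set_option autoImplicit false

namespace Pool.Agent.Q218.LZ

open H984H H974 Finset H342P H984P MeasureTheory Filter Topology
open Pool.Agent.Q218.ZO Pool.Agent.Q218.DC Pool.Agent.Q218.LL
open TH992.L (ll ll_lower ll_upper)

/-- `log (log (1 / δ))`. -/
noncomputable def L2 (δ : ℝ) : ℝ := Real.log (Real.log (1 / δ))

/-- Between `1 / (n + 1)` and `1 / n`. -/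
theorem sandwich {f : C(unitInterval, ℂ)} {n : ℕ} (hn : 1 ≤ n) {δ : ℝ} (h1 : δ ≤ 1 / (n : ℝ))
    (h2 : 1 / ((n : ℝ) + 1) ≤ δ) :
    ‖Sc δ f‖ ≤ (1 + 1 / (n : ℝ)) * V f n ∧
      V f (n + 1) ≤ (1 + 1 / (n : ℝ)) * ‖Sc δ f‖ := by
  have hn0 : (0 : ℝ) < n := by exact_mod_cast hn
  have hn1 : (1 : ℝ) ≤ n := by exact_mod_cast hn
  have hδ : 0 < δ := lt_of_lt_of_le (by positivity) h2
  have hδ1 : δ ≤ 1 := h1.trans ((div_le_one hn0).2 hn1)
  have hc : 1 ≤ 1 + 1 / (n : ℝ) := by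
    have : 0 < 1 / (n : ℝ) := by positivity
    linarith
  have key : ∀ {x y : ℝ}, 0 < y → x ≤ (1 + 1 / (n : ℝ)) * y → 0 ≤ x →
      x ^ (4/7 : ℝ) ≤ (1 + 1 / (n : ℝ)) * y ^ (4/7 : ℝ) := by
    intro x y hy hxy hx
    calc x ^ (4/7 : ℝ) ≤ ((1 + 1 / (n : ℝ)) * y) ^ (4/7 : ℝ) :=
          Real.rpow_le_rpow hx hxy (by norm_num)
      _ = (1 + 1 / (n : ℝ)) ^ (4/7 : ℝ) * y ^ (4/7 : ℝ) := Real.mul_rpow (by positivity) hy.le
      _ ≤ (1 + 1 / (n : ℝ)) * y ^ (4/7 : ℝ) := by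
          refine mul_le_mul_of_nonneg_right ?_ (by positivity)
          calc (1 + 1 / (n : ℝ)) ^ (4/7 : ℝ) ≤ (1 + 1 / (n : ℝ)) ^ (1 : ℝ) :=
                Real.rpow_le_rpow_of_exponent_le hc (by norm_num)
            _ = _ := Real.rpow_one _
  constructor
  · have m1 := Sc_mono hδ h1 ((div_le_one hn0).2 hn1) f
    have k1 := key (x := 1 / (n : ℝ)) (y := δ) hδ (by
      calc 1 / (n : ℝ) = (1 + 1 / (n : ℝ)) * (1 / ((n : ℝ) + 1)) := by field_simp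
        _ ≤ _ := mul_le_mul_of_nonneg_left h2 (by positivity)) (by positivity)
    have h3 : 0 < δ ^ (4/7 : ℝ) := by positivity
    have h4 : δ ^ (4/7 : ℝ) * ‖Sc δ f‖ ≤ δ ^ (4/7 : ℝ) * ((1 + 1 / (n : ℝ)) * V f n) := by
      refine m1.trans ?_
      calc (1 / (n : ℝ)) ^ (4/7 : ℝ) * ‖Sc (1 / (n : ℝ)) f‖
          ≤ ((1 + 1 / (n : ℝ)) * δ ^ (4/7 : ℝ)) * ‖Sc (1 / (n : ℝ)) f‖ :=
            mul_le_mul_of_nonneg_right k1 (norm_nonneg _)
        _ = δ ^ (4/7 : ℝ) * ((1 + 1 / (n : ℝ)) * V f n) := by unfold V; ring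
    exact le_of_mul_le_mul_left h4 h3
  · have h2' : 1 / ((n + 1 : ℕ) : ℝ) ≤ δ := by push_cast; exact h2
    have m1 := Sc_mono (s := 1 / ((n + 1 : ℕ) : ℝ)) (by positivity) h2' hδ1 f
    have k1 := key (x := δ) (y := 1 / ((n + 1 : ℕ) : ℝ)) (by positivity) (by
      refine h1.trans (le_of_eq ?_)
      push_cast
      field_simp) hδ.le
    have h3 : 0 < (1 / ((n + 1 : ℕ) : ℝ)) ^ (4/7 : ℝ) := by positivity
    have h4 : (1 / ((n + 1 : ℕ) : ℝ)) ^ (4/7 : ℝ) * V f (n + 1) ≤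
        (1 / ((n + 1 : ℕ) : ℝ)) ^ (4/7 : ℝ) * ((1 + 1 / (n : ℝ)) * ‖Sc δ f‖) := by
      refine m1.trans ?_
      calc δ ^ (4/7 : ℝ) * ‖Sc δ f‖
          ≤ ((1 + 1 / (n : ℝ)) * (1 / ((n + 1 : ℕ) : ℝ)) ^ (4/7 : ℝ)) * ‖Sc δ f‖ :=
            mul_le_mul_of_nonneg_right k1 (norm_nonneg _)
        _ = _ := by ring
    exact le_of_mul_le_mul_left h4 h3

/-- Every small `δ` lies between `1 / (n + 1)` and `1 / n` for a large `n`. -/
theorem exists_n {P : ℕ → Prop} (hP : ∀ᶠ n in atTop, P n) : ∃ δ₀ : ℝ, 0 < δ₀ ∧ δ₀ ≤ 1 ∧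
    ∀ δ : ℝ, 0 < δ → δ ≤ δ₀ → ∃ n : ℕ, 1 ≤ n ∧ P n ∧ δ ≤ 1 / (n : ℝ) ∧ 1 / ((n : ℝ) + 1) ≤ δ ∧
      (n : ℝ) ≤ 1 / δ := by
  obtain ⟨N, hN⟩ := eventually_atTop.1 hP
  refine ⟨1 / ((N : ℝ) + 1), by positivity, ?_, fun δ hδ hδ0 => ?_⟩
  · rw [div_le_one (by positivity)]
    have : (0 : ℝ) ≤ N := by positivity
    linarith
  · have h1 : (N : ℝ) + 1 ≤ 1 / δ := by
      rw [le_div_iff₀ hδ]
      rw [le_div_iff₀ (by positivity)] at hδ0
      linarith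
    have h2 : N + 1 ≤ ⌊1 / δ⌋₊ := Nat.le_floor (by push_cast; exact h1)
    have h3 : ((⌊1 / δ⌋₊ : ℕ) : ℝ) ≤ 1 / δ := Nat.floor_le (by positivity)
    have h4 : 1 / δ < ((⌊1 / δ⌋₊ : ℕ) : ℝ) + 1 := Nat.lt_floor_add_one _
    have h5 : (0 : ℝ) < ((⌊1 / δ⌋₊ : ℕ) : ℝ) := by
      have : 0 < ⌊1 / δ⌋₊ := by omega
      exact_mod_cast this
    refine ⟨⌊1 / δ⌋₊, by omega, hN _ (by omega), ?_, ?_, h3⟩
    · rw [le_div_iff₀ h5]
      rw [le_div_iff₀ hδ] at h3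
      linarith
    · rw [div_le_iff₀ (by positivity)]
      rw [div_lt_iff₀ hδ] at h4
      linarith

theorem ll_le_L2 {n : ℕ} (hn : 2 ≤ n) {δ : ℝ} (h : (n : ℝ) ≤ 1 / δ) : ll n ≤ L2 δ := by
  have h2 : (2 : ℝ) ≤ n := by exact_mod_cast hn
  unfold ll L2
  exact Real.log_le_log (Real.log_pos (by linarith)) (Real.log_le_log (by linarith) h)

theorem up_cont {K : ℝ} (hK : 0 < K) {f : C(unitInterval, ℂ)}
    (h : ∀ ε : ℝ, 0 < ε → ∀ᶠ n in atTop, V f n ≤ (K + ε) * (ll n) ^ (3/7 : ℝ))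
    {ε : ℝ} (hε : 0 < ε) : ∃ δ₀ : ℝ, 0 < δ₀ ∧ δ₀ ≤ 1 ∧ ∀ δ : ℝ, 0 < δ → δ ≤ δ₀ →
      ‖Sc δ f‖ ≤ (K + ε) * (L2 δ) ^ (3/7 : ℝ) := by
  have h1 := h (ε / 2) (_root_.half_pos hε)
  have hbig : ∀ᶠ n : ℕ in atTop, 2 * (K + ε) / ε ≤ n :=
    tendsto_natCast_atTop_atTop.eventually_ge_atTop _
  obtain ⟨δ₀, hδ₀, hδ₁, key⟩ := exists_n (h1.and (hbig.and ((eventually_ge_atTop 2).and
    (ll_atTop.eventually_ge_atTop 1))))
  refine ⟨δ₀, hδ₀, hδ₁, fun δ hδ hδδ => ?_⟩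
  obtain ⟨n, hn, ⟨g1, g2, g3, g4⟩, g5, g6, g7⟩ := key δ hδ hδδ
  have hn0 : (0 : ℝ) < n := by exact_mod_cast hn
  have h2 := (sandwich (f := f) hn g5 g6).1
  have h3 := ll_le_L2 g3 g7
  have h4 : (ll n) ^ (3/7 : ℝ) ≤ (L2 δ) ^ (3/7 : ℝ) :=
    Real.rpow_le_rpow (by linarith) h3 (by norm_num)
  have h5 : (1 + 1 / (n : ℝ)) * (K + ε / 2) ≤ K + ε := by
    rw [div_le_iff₀ hε] at g2
    have h6 : (K + ε) / n ≤ ε / 2 := by
      rw [div_le_div_iff₀ hn0 (by norm_num)]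
      linarith
    have h7 : 1 / (n : ℝ) * (K + ε / 2) ≤ (K + ε) / n := by
      rw [one_div_mul_eq_div]
      exact div_le_div_of_nonneg_right (by linarith) hn0.le
    linarith
  calc ‖Sc δ f‖ ≤ (1 + 1 / (n : ℝ)) * V f n := h2
    _ ≤ (1 + 1 / (n : ℝ)) * ((K + ε / 2) * (ll n) ^ (3/7 : ℝ)) :=
        mul_le_mul_of_nonneg_left g1 (by positivity)
    _ = ((1 + 1 / (n : ℝ)) * (K + ε / 2)) * (ll n) ^ (3/7 : ℝ) := by ring
    _ ≤ (K + ε) * (L2 δ) ^ (3/7 : ℝ) :=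
        mul_le_mul h5 h4 (Real.rpow_nonneg (by linarith) _) (by linarith)

theorem low_cont {K : ℝ} (hK : 0 < K) {f : C(unitInterval, ℂ)}
    (h : ∀ ε : ℝ, 0 < ε → ∀ᶠ n in atTop, (K - ε) * (ll n) ^ (-(1/14) : ℝ) ≤ V f n)
    {ε : ℝ} (hε : 0 < ε) : ∃ δ₀ : ℝ, 0 < δ₀ ∧ δ₀ ≤ 1 ∧ ∀ δ : ℝ, 0 < δ → δ ≤ δ₀ →
      (K - ε) * (L2 δ) ^ (-(1/14) : ℝ) ≤ ‖Sc δ f‖ := by
  have h1 := (tendsto_add_atTop_nat 1).eventually (h (ε / 2) (_root_.half_pos hε))
  have hbig : ∀ᶠ n : ℕ in atTop, 6 * K / ε ≤ n :=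
    tendsto_natCast_atTop_atTop.eventually_ge_atTop _
  obtain ⟨δ₀, hδ₀, hδ₁, key⟩ := exists_n (h1.and (hbig.and ((eventually_ge_atTop 2).and
    ((ll_atTop.eventually_ge_atTop 1).and (log_atTop.eventually_ge_atTop 1)))))
  refine ⟨δ₀, hδ₀, hδ₁, fun δ hδ hδδ => ?_⟩
  obtain ⟨n, hn, ⟨g1, g2, g3, g4, g4'⟩, g5, g6, g7⟩ := key δ hδ hδδ
  have hn0 : (0 : ℝ) < n := by exact_mod_cast hn
  have h2 := (sandwich (f := f) hn g5 g6).2
  have h3 := ll_le_L2 g3 g7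
  have hL : 0 < L2 δ := by linarith
  rcases le_or_gt K ε with hc | hc
  · refine le_trans ?_ (norm_nonneg _)
    exact mul_nonpos_of_nonpos_of_nonneg (by linarith) (Real.rpow_nonneg hL.le _)
  -- `ll (n + 1) ≤ (1 + 1 / n) ll n`
  have hq : 0 < 1 / (n : ℝ) := by positivity
  have h4 : ll (n + 1) ≤ (1 + 1 / (n : ℝ)) * L2 δ := by
    have e1 : Real.log ((n + 1 : ℕ) : ℝ) ≤ (1 + 1 / (n : ℝ)) * Real.log n := by
      have e2 : Real.log ((n + 1 : ℕ) : ℝ) = Real.log n + Real.log (1 + 1 / (n : ℝ)) := by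
        rw [← Real.log_mul hn0.ne' (by positivity)]
        congr 1
        push_cast
        field_simp
      have e3 : Real.log (1 + 1 / (n : ℝ)) ≤ 1 / n := by
        have := Real.log_le_sub_one_of_pos (show 0 < 1 + 1 / (n : ℝ) by positivity)
        linarith
      rw [e2]
      have e4 : 1 / (n : ℝ) ≤ 1 / n * Real.log n := le_mul_of_one_le_right hq.le g4'
      linarith
    have e5 : ll (n + 1) ≤ ll n + 1 / n := by
      unfold ll
      have hln : 0 < Real.log n := by linarith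
      calc Real.log (Real.log ((n + 1 : ℕ) : ℝ)) ≤
            Real.log ((1 + 1 / (n : ℝ)) * Real.log n) := by
            apply Real.log_le_log _ e1
            apply Real.log_pos
            push_cast
            linarith
        _ = Real.log (1 + 1 / (n : ℝ)) + Real.log (Real.log n) :=
            Real.log_mul (by positivity) hln.ne'
        _ ≤ _ := by
            have := Real.log_le_sub_one_of_pos (show 0 < 1 + 1 / (n : ℝ) by positivity)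
            linarith
    have e6 : 1 / (n : ℝ) ≤ 1 / n * ll n := le_mul_of_one_le_right hq.le g4
    have e7 : (1 + 1 / (n : ℝ)) * ll n ≤ (1 + 1 / (n : ℝ)) * L2 δ :=
      mul_le_mul_of_nonneg_left h3 (by positivity)
    linarith
  have hll : 0 < ll (n + 1) := by
    have := TH992.L.ll_mono (m := n) (n := n + 1)
    rcases Nat.lt_or_ge n 3 with hn3 | hn3
    · exfalso
      have : n = 2 := by omega
      subst this
      have h5 : Real.log (2 : ℝ) < 1 := by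
        have := Real.log_two_lt_d9
        linarith
      push_cast at g4'
      linarith
    · have := this hn3 (Nat.le_succ _)
      linarith
  set q : ℝ := 1 + 1 / (n : ℝ) with hqd
  have hq0 : 0 < q := by positivity
  have hq1 : 1 ≤ q := by linarith
  have h5 : q⁻¹ * (L2 δ) ^ (-(1/14) : ℝ) ≤ (ll (n + 1)) ^ (-(1/14) : ℝ) := by
    calc q⁻¹ * (L2 δ) ^ (-(1/14) : ℝ) ≤ q ^ (-(1/14) : ℝ) * (L2 δ) ^ (-(1/14) : ℝ) := by
          refine mul_le_mul_of_nonneg_right ?_ (Real.rpow_nonneg hL.le _)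
          rw [← Real.rpow_neg_one]
          exact Real.rpow_le_rpow_of_exponent_le hq1 (by norm_num)
      _ = (q * L2 δ) ^ (-(1/14) : ℝ) := (Real.mul_rpow hq0.le hL.le).symm
      _ ≤ _ := Real.rpow_le_rpow_of_nonpos hll h4 (by norm_num)
  have h6 : (K - ε / 2) * (q⁻¹ * (L2 δ) ^ (-(1/14) : ℝ)) ≤ q * ‖Sc δ f‖ :=
    (mul_le_mul_of_nonneg_left h5 (by linarith)).trans (g1.trans h2)
  have h7 : (K - ε) * (q * q) ≤ K - ε / 2 := by
    have e1 : q * q ≤ 1 + 3 * (1 / n) := by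
      rw [hqd]
      have : 1 / (n : ℝ) ≤ 1 := (div_le_one hn0).2 (by exact_mod_cast hn)
      nlinarith
    have e2 : 3 * K * (1 / n) ≤ ε / 2 := by
      rw [div_le_iff₀ hε] at g2
      rw [mul_one_div, div_le_div_iff₀ hn0 (by norm_num)]
      linarith
    have e3 := mul_le_mul_of_nonneg_left e1 (show 0 ≤ K - ε by linarith)
    have e4 : 0 ≤ ε * (1 / (n : ℝ)) := by positivity
    nlinarith
  set w : ℝ := (L2 δ) ^ (-(1/14) : ℝ) with hw
  have hw0 : 0 ≤ w := Real.rpow_nonneg hL.le _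
  have h8 : (q * q) * ((K - ε) * w) ≤ (q * q) * ‖Sc δ f‖ := by
    calc (q * q) * ((K - ε) * w) = (K - ε) * (q * q) * w := by ring
      _ ≤ (K - ε / 2) * w := mul_le_mul_of_nonneg_right h7 hw0
      _ = q * ((K - ε / 2) * (q⁻¹ * w)) := by field_simp
      _ ≤ q * (q * ‖Sc δ f‖) := mul_le_mul_of_nonneg_left h6 hq0.le
      _ = _ := by ring
  exact le_of_mul_le_mul_left h8 (by positivity)

/-- The function `t ^ (4/7) (log log (1 / t)) ^ (3/7)` is increasing for small `t`. -/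
theorem rho_mono {t δ : ℝ} (ht : 0 < t) (htδ : t ≤ δ) (hδ : Real.exp 1 ≤ Real.log (1 / δ)) :
    t ^ (4/7 : ℝ) * (L2 t) ^ (3/7 : ℝ) ≤ δ ^ (4/7 : ℝ) * (L2 δ) ^ (3/7 : ℝ) := by
  have hδ0 : 0 < δ := ht.trans_le htδ
  set v := Real.log (1 / δ) with hv
  set u := Real.log (1 / t) with hu
  have huv : v ≤ u := Real.log_le_log (by positivity) (one_div_le_one_div_of_le ht htδ)
  have he : (1 : ℝ) ≤ Real.exp 1 := Real.one_le_exp (by norm_num)
  have hv1 : 1 ≤ v := he.trans hδ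
  have hv0 : 0 < v := by linarith
  have hlv : 1 ≤ Real.log v := by
    have := Real.log_le_log (Real.exp_pos 1) hδ
    rwa [Real.log_exp] at this
  have et : t = Real.exp (-u) := by
    rw [hu, one_div, Real.log_inv, neg_neg, Real.exp_log ht]
  have eδ : δ = Real.exp (-v) := by
    rw [hv, one_div, Real.log_inv, neg_neg, Real.exp_log hδ0]
  have h1 : Real.log u ≤ Real.log v * Real.exp (u - v) := by
    have h2 : Real.log u = Real.log v + Real.log (u / v) := by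
      rw [← Real.log_mul hv0.ne' (by
        have : 0 < u / v := div_pos (by linarith) hv0
        exact this.ne')]
      congr 1
      field_simp
    have h3 : Real.log (u / v) ≤ u / v - 1 :=
      Real.log_le_sub_one_of_pos (div_pos (by linarith) hv0)
    have h4 : u / v - 1 ≤ u - v := by
      rw [div_sub_one hv0.ne', div_le_iff₀ hv0]
      nlinarith
    have h5 : u - v + 1 ≤ Real.exp (u - v) := Real.add_one_le_exp _
    have h6 : u - v ≤ Real.log v * (u - v) := le_mul_of_one_le_left (by linarith) hlv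
    have h7 := mul_le_mul_of_nonneg_left h5 (show 0 ≤ Real.log v by linarith)
    linarith
  have h2 : (Real.log u) ^ (3/7 : ℝ) ≤ (Real.log v) ^ (3/7 : ℝ) * Real.exp (3/7 * (u - v)) := by
    calc (Real.log u) ^ (3/7 : ℝ) ≤ (Real.log v * Real.exp (u - v)) ^ (3/7 : ℝ) :=
          Real.rpow_le_rpow (Real.log_nonneg (by linarith)) h1 (by norm_num)
      _ = (Real.log v) ^ (3/7 : ℝ) * (Real.exp (u - v)) ^ (3/7 : ℝ) :=
          Real.mul_rpow (by linarith) (Real.exp_nonneg _)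
      _ = _ := by rw [← Real.exp_mul, mul_comm (u - v)]
  have h3 : t ^ (4/7 : ℝ) = Real.exp (-(4/7) * u) := by
    rw [et, ← Real.exp_mul]
    congr 1
    ring
  have h4 : δ ^ (4/7 : ℝ) = Real.exp (-(4/7) * v) := by
    rw [eδ, ← Real.exp_mul]
    congr 1
    ring
  show t ^ (4/7 : ℝ) * (Real.log u) ^ (3/7 : ℝ) ≤ δ ^ (4/7 : ℝ) * (Real.log v) ^ (3/7 : ℝ)
  rw [h3, h4]
  have hlv0 : 0 ≤ (Real.log v) ^ (3/7 : ℝ) := Real.rpow_nonneg (by linarith) _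
  calc Real.exp (-(4/7) * u) * (Real.log u) ^ (3/7 : ℝ)
      ≤ Real.exp (-(4/7) * u) * ((Real.log v) ^ (3/7 : ℝ) * Real.exp (3/7 * (u - v))) :=
        mul_le_mul_of_nonneg_left h2 (Real.exp_nonneg _)
    _ = Real.exp (-(4/7) * u + 3/7 * (u - v)) * (Real.log v) ^ (3/7 : ℝ) := by
        rw [Real.exp_add]; ring
    _ ≤ _ := by
        refine mul_le_mul_of_nonneg_right (Real.exp_le_exp.2 ?_) hlv0
        linarith

theorem L2_n (n : ℕ) : L2 (1 / (n : ℝ)) = ll n := by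
  unfold L2 ll
  rw [one_div_one_div]

/-- Large values at arbitrarily small times. -/
theorem io_cont {K : ℝ} {f : C(unitInterval, ℂ)}
    (h : ∀ ε : ℝ, 0 < ε → ∃ᶠ n in atTop, (K - ε) * (ll n) ^ (3/7 : ℝ) ≤ V f n)
    (hf0 : f 0 = 0) {ε : ℝ} (hε : 0 < ε) {δ₀ : ℝ} (hδ₀ : 0 < δ₀) :
    ∃ t : unitInterval, 0 < (t : ℝ) ∧ (t : ℝ) ≤ δ₀ ∧
      (K - ε) * ((t : ℝ) ^ (4/7 : ℝ) * (L2 t) ^ (3/7 : ℝ)) ≤ ‖f t‖ := by
  have hlim : Tendsto (fun n : ℕ => 1 / (n : ℝ)) atTop (𝓝 0) := tendsto_one_div_atTop_nhds_zero_nat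
  obtain ⟨n, hn, hn1, hn2, hn3⟩ := ((h ε hε).and_eventually
    ((hlim.eventually (gt_mem_nhds (lt_min hδ₀ zero_lt_one))).and
      ((eventually_ge_atTop 1).and (log_atTop.eventually_ge_atTop (Real.exp 1))))).exists
  have hn0 : (0 : ℝ) < n := by exact_mod_cast hn2
  have hs : (0 : ℝ) < 1 / n := by positivity
  have hs1 : 1 / (n : ℝ) ≤ 1 := hn1.le.trans (min_le_right _ _)
  have he : Real.exp 1 ≤ Real.log (1 / (1 / (n : ℝ))) := by rwa [one_div_one_div]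
  rcases le_or_gt (K - ε) 0 with hc | hc
  · refine ⟨⟨1 / (n : ℝ), hs.le, hs1⟩, hs, hn1.le.trans (min_le_left _ _), ?_⟩
    refine le_trans (mul_nonpos_of_nonpos_of_nonneg hc ?_) (norm_nonneg _)
    refine mul_nonneg (by positivity) (Real.rpow_nonneg ?_ _)
    show 0 ≤ L2 (1 / (n : ℝ))
    apply Real.log_nonneg
    exact (Real.one_le_exp (by norm_num)).trans he
  · obtain ⟨t, ht, htn⟩ := exists_Sc hs hs1 f
    have hll : 0 < ll n := by
      apply Real.log_pos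
      have : (1 : ℝ) < Real.exp 1 := Real.one_lt_exp_iff.2 (by norm_num)
      linarith
    have hpos : 0 < ‖f t‖ := by
      rw [htn]
      refine mul_pos (by positivity) (lt_of_lt_of_le ?_ hn)
      exact mul_pos hc (Real.rpow_pos_of_pos hll _)
    have ht0 : 0 < (t : ℝ) := by
      rcases t.2.1.lt_or_eq with h1 | h1
      · exact h1
      · exfalso
        have : t = 0 := Subtype.ext h1.symm
        rw [this, hf0, norm_zero] at hpos
        exact lt_irrefl _ hpos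
    refine ⟨t, ht0, ht.trans (hn1.le.trans (min_le_left _ _)), ?_⟩
    calc (K - ε) * ((t : ℝ) ^ (4/7 : ℝ) * (L2 t) ^ (3/7 : ℝ))
        ≤ (K - ε) * ((1 / (n : ℝ)) ^ (4/7 : ℝ) * (L2 (1 / (n : ℝ))) ^ (3/7 : ℝ)) :=
          mul_le_mul_of_nonneg_left (rho_mono ht0 ht he) hc.le
      _ = (1 / (n : ℝ)) ^ (4/7 : ℝ) * ((K - ε) * (ll n) ^ (3/7 : ℝ)) := by rw [L2_n]; ring
      _ ≤ (1 / (n : ℝ)) ^ (4/7 : ℝ) * V f n := mul_le_mul_of_nonneg_left hn (by positivity)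
      _ = ‖f t‖ := htn.symm

/-- The curve starts at the origin. -/
theorem start_zero {K : ℝ} {f : C(unitInterval, ℂ)}
    (h : ∀ᶠ n in atTop, V f n ≤ K * (ll n) ^ (3/7 : ℝ)) : f 0 = 0 := by
  have hlim : Tendsto (fun n : ℕ => (1 / (n : ℝ)) ^ (4/7 : ℝ) * (K * (ll n) ^ (3/7 : ℝ))) atTop
      (𝓝 0) := by
    have h1 : Tendsto (fun n : ℕ => Real.log n / n) atTop (𝓝 0) := by
      have := (Real.isLittleO_log_id_atTop).tendsto_div_nhds_zero
      exact this.comp tendsto_natCast_atTop_atTop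
    have h2 : Tendsto (fun n : ℕ => |K| * (Real.log n / n) ^ (3/7 : ℝ)) atTop (𝓝 0) := by
      have := (h1.rpow_const (p := (3/7 : ℝ)) (Or.inr (by norm_num))).const_mul |K|
      rwa [Real.zero_rpow (by norm_num), mul_zero] at this
    refine squeeze_zero_norm' ?_ h2
    filter_upwards [ll_atTop.eventually_ge_atTop 1, log_atTop.eventually_ge_atTop 1,
      eventually_ge_atTop 1] with n g1 g2 g3
    have hn0 : (0 : ℝ) < n := by exact_mod_cast g3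
    have hn1 : 1 / (n : ℝ) ≤ 1 := (div_le_one hn0).2 (by exact_mod_cast g3)
    rw [norm_mul, norm_mul, Real.norm_eq_abs, Real.norm_eq_abs, Real.norm_eq_abs,
      abs_of_nonneg (by positivity), abs_of_nonneg (Real.rpow_nonneg (by linarith) _)]
    have e1 : (1 / (n : ℝ)) ^ (4/7 : ℝ) ≤ (1 / (n : ℝ)) ^ (3/7 : ℝ) :=
      Real.rpow_le_rpow_of_exponent_ge (by positivity) hn1 (by norm_num)
    have e2 : ll n ≤ Real.log n := by
      unfold ll
      have := Real.log_le_sub_one_of_pos (show 0 < Real.log n by linarith)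
      linarith
    have e3 : (ll n) ^ (3/7 : ℝ) ≤ (Real.log n) ^ (3/7 : ℝ) :=
      Real.rpow_le_rpow (by linarith) e2 (by norm_num)
    calc (1 / (n : ℝ)) ^ (4/7 : ℝ) * (|K| * (ll n) ^ (3/7 : ℝ))
        ≤ (1 / (n : ℝ)) ^ (3/7 : ℝ) * (|K| * (Real.log n) ^ (3/7 : ℝ)) :=
          mul_le_mul e1 (mul_le_mul_of_nonneg_left e3 (abs_nonneg _))
            (mul_nonneg (abs_nonneg _) (Real.rpow_nonneg (by linarith) _)) (by positivity)
      _ = |K| * (Real.log n / n) ^ (3/7 : ℝ) := by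
          rw [div_eq_mul_one_div (Real.log n), Real.mul_rpow (by linarith) (by positivity)]
          ring
  have h3 : ‖f 0‖ ≤ 0 := by
    refine ge_of_tendsto hlim ?_
    filter_upwards [h, eventually_ge_atTop 1] with n hn hn1
    have hn0 : (0 : ℝ) < n := by exact_mod_cast hn1
    have hs : (0 : ℝ) < 1 / n := by positivity
    have hs1 : 1 / (n : ℝ) ≤ 1 := (div_le_one hn0).2 (by exact_mod_cast hn1)
    refine (le_Sc hs hs1 f (t := 0) hs.le).trans ?_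
    exact mul_le_mul_of_nonneg_left hn (by positivity)
  exact norm_le_zero_iff.1 h3

/-- Small maxima at arbitrarily small scales. -/
theorem io_slow {K : ℝ} {f : C(unitInterval, ℂ)}
    (h : ∀ ε : ℝ, 0 < ε → ∃ᶠ n in atTop, V f n ≤ (K + ε) * (ll n) ^ (-(1/14) : ℝ))
    {ε : ℝ} (hε : 0 < ε) {δ₀ : ℝ} (hδ₀ : 0 < δ₀) :
    ∃ δ : ℝ, 0 < δ ∧ δ ≤ δ₀ ∧ δ ≤ 1 ∧ ‖Sc δ f‖ ≤ (K + ε) * (L2 δ) ^ (-(1/14) : ℝ) := by
  have hlim : Tendsto (fun n : ℕ => 1 / (n : ℝ)) atTop (𝓝 0) := tendsto_one_div_atTop_nhds_zero_nat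
  obtain ⟨n, hn, hn1, hn2⟩ := ((h ε hε).and_eventually
    ((hlim.eventually (gt_mem_nhds (lt_min hδ₀ zero_lt_one))).and
      (eventually_ge_atTop 1))).exists
  have hn0 : (0 : ℝ) < n := by exact_mod_cast hn2
  refine ⟨1 / (n : ℝ), by positivity, hn1.le.trans (min_le_left _ _),
    hn1.le.trans (min_le_right _ _), ?_⟩
  rw [L2_n]
  exact hn

end Pool.Agent.Q218.LZ
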