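import Pool.Agent.TH992.L.UpTail
import Pool.Agent.TH992.L.IoSlow
import Pool.Agent.TH992.L.IoFast
import Pool.Agent.H984R4.HN.Disp

/-!
Lower bounds for the two tails of the distance of the exploration path, for fixed ratios and large
scales.
-/

set_option autoImplicit false

namespace Pool.Agent.Q218.LZ

open H974 Finset H342P H984P H984H MeasureTheory Filter Topology TH992.T TH992.L

theorem prob_an {b h ρ : ℤ} (hs : An b h ⊆ (bx ρ).edges) (A : Finset Edg → Prop) :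
    perc.real {ω | A (cut ω ρ ∩ An b h)} = P (An b h) A := by
  rw [perc_cut ρ (fun F => A (F ∩ An b h))]
  have h1 : P (bx ρ).edges (fun F => A (F ∩ An b h)) = P (An b h) (fun F => A (F ∩ An b h)) :=
    Pr_local hs (fun F _ => by rw [inter_assoc, inter_self])
  rw [h1, P_inter]

theorem fast_low {C : ℝ} (hC : 0 < C) (hU : TwoUp C (1/4)) : ∃ D x0 : ℝ, 0 < D ∧ 1 ≤ x0 ∧
    ∀ x : ℝ, x0 ≤ x → ∀ᶠ n : ℕ in atTop,
      Real.exp (-(D * x ^ (7/3 : ℝ))) ≤ perc.real {ω | x * (n : ℝ) ^ (4/7 : ℝ) ≤ reach n ω} := by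
  obtain ⟨θ, K2, hθ, hK2, hpr⟩ := fast_pr hC hU
  obtain ⟨l, hl, htail⟩ := xn_tail hC hU
  have hK20 : 0 < K2 := by linarith
  obtain ⟨C3, hC3⟩ : ∃ C3 : ℝ, C3 = 10 + 18 * θ := ⟨_, rfl⟩
  have hC3' : 10 ≤ C3 := by rw [hC3]; linarith
  have hC30 : 0 < C3 := by linarith
  obtain ⟨c4, hc4⟩ : ∃ c4 : ℝ, c4 = 8 * C3 ^ (4/7 : ℝ) := ⟨_, rfl⟩
  have hc41 : 1 ≤ c4 := by
    have h1 : 1 ≤ C3 ^ (4/7 : ℝ) := Real.one_le_rpow (by linarith) (by norm_num)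
    rw [hc4]; linarith
  have hc40 : 0 < c4 := by linarith
  obtain ⟨D, hD⟩ : ∃ D : ℝ, D = 2 * K2 * c4 ^ (7/3 : ℝ) + 1 := ⟨_, rfl⟩
  obtain ⟨m0, hm0⟩ : ∃ m0 : ℝ, m0 = max 4 (l ^ 8 * (K2 + 6)) := ⟨_, rfl⟩
  have hm04 : 4 ≤ m0 := by rw [hm0]; exact le_max_left _ _
  have hm0l : l ^ 8 * (K2 + 6) ≤ m0 := by rw [hm0]; exact le_max_right _ _
  refine ⟨D, m0, by rw [hD]; positivity, by linarith, fun x hx => ?_⟩
  have hx1 : 1 ≤ x := by linarith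
  have hx0 : 0 < x := by linarith
  have hcx : 1 ≤ c4 * x := by nlinarith
  have hxc : x ≤ (c4 * x) ^ (7/3 : ℝ) := by
    have h1 : (c4 * x) ^ (1 : ℝ) ≤ (c4 * x) ^ (7/3 : ℝ) :=
      Real.rpow_le_rpow_of_exponent_le hcx (by norm_num)
    rw [Real.rpow_one] at h1
    nlinarith
  obtain ⟨K, hK⟩ : ∃ K : ℕ, K = ⌈(c4 * x) ^ (7/3 : ℝ)⌉₊ := ⟨_, rfl⟩
  have hKge : (c4 * x) ^ (7/3 : ℝ) ≤ K := by rw [hK]; exact Nat.le_ceil _
  have hKlt : (K : ℝ) < (c4 * x) ^ (7/3 : ℝ) + 1 := by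
    rw [hK]; exact Nat.ceil_lt_add_one (by positivity)
  have hKm0 : m0 ≤ K := by linarith
  have hK4 : 4 ≤ K := by
    have : (4 : ℝ) ≤ K := by linarith
    exact_mod_cast this
  have hKr : (4 : ℝ) ≤ K := by exact_mod_cast hK4
  have hK0 : (0 : ℝ) < K := by linarith
  -- comparison of the two probabilities
  have hexp : 90 * Real.exp (-((K : ℝ) / l) ^ (8 : ℕ)) ≤ Real.exp (-(K2 * K)) / 2 := by
    have h1 : K2 * K + 6 ≤ ((K : ℝ) / l) ^ (8 : ℕ) := by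
      rw [div_pow, le_div_iff₀ (by positivity)]
      have h2 : (K : ℝ) ≤ K ^ 7 := by
        calc (K : ℝ) = (K : ℝ) ^ 1 := (pow_one _).symm
          _ ≤ (K : ℝ) ^ 7 := pow_le_pow_right₀ (by linarith) (by norm_num)
      have h3 : l ^ 8 * (K2 + 6) ≤ (K : ℝ) ^ 7 := (hm0l.trans hKm0).trans h2
      calc (K2 * K + 6) * l ^ 8 ≤ (K2 * K + 6 * K) * l ^ 8 := by
            apply mul_le_mul_of_nonneg_right _ (by positivity)
            nlinarith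
        _ = K * (l ^ 8 * (K2 + 6)) := by ring
        _ ≤ K * (K : ℝ) ^ 7 := mul_le_mul_of_nonneg_left h3 hK0.le
        _ = (K : ℝ) ^ 8 := by ring
    have h4 : Real.exp (-((K : ℝ) / l) ^ (8 : ℕ)) ≤ Real.exp (-(K2 * K)) * Real.exp (-6) := by
      rw [← Real.exp_add]
      apply Real.exp_le_exp.2
      have : (-((K : ℝ) / l) ^ (8 : ℕ)) = -(((K : ℝ) / l) ^ (8 : ℕ)) := by ring
      linarith
    have h5 : 90 * Real.exp (-6) ≤ 1 / 2 := by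
      have h6 : (180 : ℝ) ≤ Real.exp 6 := by
        have h7 := Real.exp_one_gt_d9
        have h8 : Real.exp 6 = Real.exp 1 ^ 6 := by
          rw [← Real.exp_nat_mul]
          norm_num
        rw [h8]
        calc (180 : ℝ) ≤ 2.7 ^ 6 := by norm_num
          _ ≤ Real.exp 1 ^ 6 := pow_le_pow_left₀ (by norm_num) (by linarith) 6
      rw [Real.exp_neg, ← div_eq_mul_inv, div_le_div_iff₀ (Real.exp_pos _) (by norm_num)]
      linarith
    have h9 := Real.exp_pos (-(K2 * K))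
    nlinarith
  have hfin : Real.exp (-(D * x ^ (7/3 : ℝ))) ≤ Real.exp (-(K2 * K)) / 2 := by
    have h1 : (1 : ℝ) ≤ x ^ (7/3 : ℝ) := Real.one_le_rpow hx1 (by norm_num)
    have h2 : (K : ℝ) ≤ 2 * (c4 ^ (7/3 : ℝ) * x ^ (7/3 : ℝ)) := by
      rw [← Real.mul_rpow hc40.le hx0.le]
      linarith
    have h3 : K2 * K + 1 ≤ D * x ^ (7/3 : ℝ) := by
      rw [hD]
      have := mul_le_mul_of_nonneg_left h2 hK20.le
      nlinarith
    calc Real.exp (-(D * x ^ (7/3 : ℝ))) ≤ Real.exp (-(K2 * K + 1)) :=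
          Real.exp_le_exp.2 (by linarith)
      _ = Real.exp (-(K2 * K)) * Real.exp (-1) := by rw [← Real.exp_add]; ring_nf
      _ ≤ Real.exp (-(K2 * K)) * (1 / 2) := by
          apply mul_le_mul_of_nonneg_left _ (Real.exp_nonneg _)
          have := Real.exp_one_gt_d9
          rw [Real.exp_neg, ← one_div, div_le_div_iff₀ (Real.exp_pos _) (by norm_num)]
          linarith
      _ = _ := by ring
  -- the scale
  have hev : ∀ᶠ n : ℕ in atTop, (2 : ℝ) ≤ ((n : ℝ) / (C3 * K)) ^ (4/7 : ℝ) := by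
    have h1 : Tendsto (fun n : ℕ => ((n : ℝ) / (C3 * K)) ^ (4/7 : ℝ)) atTop atTop :=
      (tendsto_rpow_atTop (by norm_num)).comp
        (tendsto_natCast_atTop_atTop.atTop_div_const (by positivity))
    exact h1.eventually_ge_atTop 2
  filter_upwards [hev, eventually_gt_atTop 0] with n hn hn0
  have hnr : (0 : ℝ) < n := by exact_mod_cast hn0
  set y : ℝ := ((n : ℝ) / (C3 * K)) ^ (4/7 : ℝ) with hy
  obtain ⟨a, ha⟩ : ∃ a : ℕ, a = ⌊y⌋₊ := ⟨_, rfl⟩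
  have ha1 : (a : ℝ) ≤ y := by rw [ha]; exact Nat.floor_le (by linarith)
  have ha2 : y < a + 1 := by rw [ha]; exact Nat.lt_floor_add_one _
  have ha3 : y / 2 ≤ a := by linarith
  have ha4 : 1 ≤ a := by
    have : (1 : ℝ) ≤ a := by linarith
    exact_mod_cast this
  have ha0 : (0 : ℝ) < a := by exact_mod_cast ha4
  have hy74 : y ^ (7/4 : ℝ) = n / (C3 * K) := by
    rw [hy, ← Real.rpow_mul (by positivity)]
    norm_num
  have han : C3 * K * (a : ℝ) ^ (7/4 : ℝ) ≤ n := by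
    have h1 : (a : ℝ) ^ (7/4 : ℝ) ≤ n / (C3 * K) := by
      rw [← hy74]
      exact Real.rpow_le_rpow ha0.le ha1 (by norm_num)
    rw [le_div_iff₀ (by positivity)] at h1
    linarith
  have hxn : x * (n : ℝ) ^ (4/7 : ℝ) ≤ K * a / 2 := by
    have h1 : y = (n : ℝ) ^ (4/7 : ℝ) / (C3 ^ (4/7 : ℝ) * (K : ℝ) ^ (4/7 : ℝ)) := by
      rw [hy, Real.div_rpow hnr.le (by positivity), Real.mul_rpow hC30.le hK0.le]
    have h2 : c4 * x ≤ (K : ℝ) ^ (3/7 : ℝ) := by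
      have h3 : ((c4 * x) ^ (7/3 : ℝ)) ^ (3/7 : ℝ) ≤ (K : ℝ) ^ (3/7 : ℝ) :=
        Real.rpow_le_rpow (by positivity) hKge (by norm_num)
      rwa [← Real.rpow_mul (by positivity), show (7/3 : ℝ) * (3/7) = 1 by norm_num,
        Real.rpow_one] at h3
    have h4 : (K : ℝ) = (K : ℝ) ^ (3/7 : ℝ) * (K : ℝ) ^ (4/7 : ℝ) := by
      rw [← Real.rpow_add hK0]
      norm_num
    have h5 : (K : ℝ) * y = (K : ℝ) ^ (3/7 : ℝ) * ((n : ℝ) ^ (4/7 : ℝ) / C3 ^ (4/7 : ℝ)) := by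
      rw [h1]
      nth_rewrite 1 [h4]
      field_simp
    have h6 : 8 * (x * (n : ℝ) ^ (4/7 : ℝ)) ≤ K * y := by
      rw [h5]
      have h7 : 8 * C3 ^ (4/7 : ℝ) * x ≤ (K : ℝ) ^ (3/7 : ℝ) := by rw [← hc4]; exact h2
      have h8 : 0 < C3 ^ (4/7 : ℝ) := by positivity
      rw [mul_div_assoc', le_div_iff₀ h8]
      calc 8 * (x * (n : ℝ) ^ (4/7 : ℝ)) * C3 ^ (4/7 : ℝ) =
          (8 * C3 ^ (4/7 : ℝ) * x) * (n : ℝ) ^ (4/7 : ℝ) := by ring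
        _ ≤ _ := mul_le_mul_of_nonneg_right h7 (by positivity)
    have h9 : (K : ℝ) * y / 2 ≤ K * a := by
      have := mul_le_mul_of_nonneg_left ha3 hK0.le
      linarith
    have h10 : 0 ≤ x * (n : ℝ) ^ (4/7 : ℝ) := by positivity
    linarith
  -- the event
  obtain ⟨ρ, hρ⟩ : ∃ ρ : ℤ, ρ = max (4 * (a : ℤ)) ((K * a : ℕ) : ℤ) := ⟨_, rfl⟩
  have hs : An (a : ℤ) ((K * a : ℕ) : ℤ) ⊆ (bx ρ).edges :=
    an_sub (by rw [hρ]; exact le_max_left _ _) (by rw [hρ]; exact le_max_right _ _)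
  have hE := hpr a K ha4 (by omega)
  rw [← prob_an hs (Fst θ a K)] at hE
  have hX := htail a K ha4 (by positivity)
  have hsub : {ω : Conf | Fst θ a K (cut ω ρ ∩ An (a : ℤ) ((K * a : ℕ) : ℤ))} ⊆
      {ω | x * (n : ℝ) ^ (4/7 : ℝ) ≤ reach n ω} ∪
      {ω | 10 * (K : ℝ) * (a : ℝ) ^ (7/4 : ℝ) ≤ Xn a (cut ω (4 * a))} := by
    intro ω hω
    by_cases hXn : 10 * (K : ℝ) * (a : ℝ) ^ (7/4 : ℝ) ≤ Xn a (cut ω (4 * a))
    · exact Or.inr hXn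
    left
    rw [not_le] at hXn
    obtain ⟨T, t1, t2, t3, t4⟩ := fast_det ha4 hK4 (shw_cut hs) hω
    have h1 : (T : ℝ) ≤ n := by
      have h2 : 10 * (K : ℝ) * (a : ℝ) ^ (7/4 : ℝ) + 18 * (θ * K) * (a : ℝ) ^ (7/4 : ℝ) =
          C3 * K * (a : ℝ) ^ (7/4 : ℝ) := by rw [hC3]; ring
      linarith
    have h2 : T ≤ n := by exact_mod_cast h1
    have h3 : ‖gam ω T‖ ≤ reach n ω := (norm_gam_le T ω).trans (reach_mono ω h2)
    show x * (n : ℝ) ^ (4/7 : ℝ) ≤ reach n ω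
    have h4 : (K : ℝ) * a / 2 ≤ K * a - 1 / 4 := by
      have : (1 : ℝ) ≤ K * a := by
        have : (1 : ℝ) ≤ a := by exact_mod_cast ha4
        nlinarith
      linarith
    linarith
  have h1 := (measureReal_mono (μ := perc) hsub).trans (measureReal_union_le _ _)
  linarith

theorem slow_low {c : ℝ} (hc : 0 < c) (hL : LowA c (1/4)) {C : ℝ} (hC : 0 < C)
    (hU : TwoUp C (1/4)) : ∃ D y0 : ℝ, 0 < D ∧ 0 < y0 ∧
    ∀ y : ℝ, 0 < y → y ≤ y0 → ∀ᶠ n : ℕ in atTop,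
      Real.exp (-(D / y ^ 14)) ≤ perc.real {ω | reach n ω ≤ y * (n : ℝ) ^ (4/7 : ℝ)} := by
  obtain ⟨c1, K1, hc1, hK1, hpr⟩ := slow_pr hc hL hC hU
  obtain ⟨c5, hc5⟩ : ∃ c5 : ℝ, c5 = 28 * (2 / c1) ^ (4/7 : ℝ) := ⟨_, rfl⟩
  have hc50 : 0 < c5 := by rw [hc5]; positivity
  refine ⟨4 * K1 * c5 ^ 14, c5 / 100, by positivity, by positivity, fun y hy hy0 => ?_⟩
  have hcy : 100 ≤ c5 / y := by
    rw [le_div_iff₀ hy]
    rw [le_div_iff₀ (by norm_num)] at hy0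
    linarith
  have hcy7 : 100 ≤ (c5 / y) ^ 7 := by
    calc (100 : ℝ) ≤ c5 / y := hcy
      _ = (c5 / y) ^ 1 := (pow_one _).symm
      _ ≤ (c5 / y) ^ 7 := pow_le_pow_right₀ (by linarith) (by norm_num)
  obtain ⟨M, hM⟩ : ∃ M : ℕ, M = ⌈(c5 / y) ^ 7⌉₊ := ⟨_, rfl⟩
  have hM1 : (c5 / y) ^ 7 ≤ M := by rw [hM]; exact Nat.le_ceil _
  have hM2 : (M : ℝ) < (c5 / y) ^ 7 + 1 := by rw [hM]; exact Nat.ceil_lt_add_one (by positivity)
  have hM3 : 100 ≤ M := by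
    have : (100 : ℝ) ≤ M := by linarith
    exact_mod_cast this
  have hMr : (100 : ℝ) ≤ M := by exact_mod_cast hM3
  have hM0 : (0 : ℝ) < M := by linarith
  have hexp : Real.exp (-(4 * K1 * c5 ^ 14 / y ^ 14)) ≤ Real.exp (-(K1 * (M : ℝ) ^ 2)) := by
    apply Real.exp_le_exp.2
    have h1 : (M : ℝ) ≤ 2 * (c5 / y) ^ 7 := by linarith
    have h2 : (M : ℝ) ^ 2 ≤ (2 * (c5 / y) ^ 7) ^ 2 := pow_le_pow_left₀ hM0.le h1 2
    have h3 : (2 * (c5 / y) ^ 7) ^ 2 = 4 * c5 ^ 14 / y ^ 14 := by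
      rw [mul_pow, ← pow_mul, div_pow]
      ring
    rw [h3] at h2
    have h4 := mul_le_mul_of_nonneg_left h2 hK1.le
    have h5 : K1 * (4 * c5 ^ 14 / y ^ 14) = 4 * K1 * c5 ^ 14 / y ^ 14 := by ring
    linarith
  have hMy : 14 * (2 / c1) ^ (4/7 : ℝ) ≤ y * (M : ℝ) ^ (1/7 : ℝ) := by
    have h1 : c5 / y ≤ (M : ℝ) ^ (1/7 : ℝ) := by
      have h2 : ((c5 / y) ^ 7) ^ (1/7 : ℝ) ≤ (M : ℝ) ^ (1/7 : ℝ) :=
        Real.rpow_le_rpow (by positivity) hM1 (by norm_num)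
      rwa [← Real.rpow_natCast, ← Real.rpow_mul (by positivity),
        show ((7 : ℕ) : ℝ) * (1/7) = 1 by norm_num, Real.rpow_one] at h2
    rw [div_le_iff₀ hy] at h1
    have h3 : 0 ≤ (2 / c1) ^ (4/7 : ℝ) := by positivity
    rw [hc5] at h1
    linarith
  -- the scale
  have hev : ∀ᶠ n : ℕ in atTop, (1 : ℝ) ≤ (2 * (n : ℝ) / (c1 * (M : ℝ) ^ (1/4 : ℝ))) ^ (4/7 : ℝ) / M := by
    have h1 : Tendsto (fun n : ℕ => (2 * (n : ℝ) / (c1 * (M : ℝ) ^ (1/4 : ℝ))) ^ (4/7 : ℝ) / M)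
        atTop atTop :=
      ((tendsto_rpow_atTop (by norm_num)).comp
        ((tendsto_natCast_atTop_atTop.const_mul_atTop (by norm_num : (0:ℝ) < 2)).atTop_div_const
          (by positivity))).atTop_div_const hM0
    exact h1.eventually_ge_atTop 1
  filter_upwards [hev, eventually_ge_atTop 3] with n hn hn3
  have hnr : (3 : ℝ) ≤ n := by exact_mod_cast hn3
  have hn0 : (0 : ℝ) < n := by linarith
  set w : ℝ := (2 * (n : ℝ) / (c1 * (M : ℝ) ^ (1/4 : ℝ))) ^ (4/7 : ℝ) with hw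
  set z : ℝ := w / M with hz
  obtain ⟨a, ha⟩ : ∃ a : ℕ, a = ⌈z⌉₊ := ⟨_, rfl⟩
  have ha1 : z ≤ a := by rw [ha]; exact Nat.le_ceil _
  have ha2 : (a : ℝ) < z + 1 := by rw [ha]; exact Nat.ceil_lt_add_one (by linarith)
  have ha3 : (a : ℝ) ≤ 2 * z := by linarith
  have ha4 : 1 ≤ a := by
    have : (1 : ℝ) ≤ a := by linarith
    exact_mod_cast this
  have ha0 : (0 : ℝ) < a := by exact_mod_cast ha4
  obtain ⟨b, hb⟩ : ∃ b : ℕ, b = M * a := ⟨_, rfl⟩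
  have hbr : (b : ℝ) = M * a := by rw [hb]; push_cast; ring
  have hb0 : (0 : ℝ) < b := by rw [hbr]; positivity
  have hab : 100 * a ≤ b := by rw [hb]; exact Nat.mul_le_mul_right _ hM3
  have hMz : (M : ℝ) * z = w := by rw [hz]; field_simp
  have hbw : w ≤ b := by
    rw [hbr, ← hMz]
    exact mul_le_mul_of_nonneg_left ha1 hM0.le
  have hbw2 : (b : ℝ) ≤ 2 * w := by
    rw [hbr, ← hMz]
    have := mul_le_mul_of_nonneg_left ha3 hM0.le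
    linarith
  have hba : (b : ℝ) / a = M := by rw [hbr]; field_simp
  have hw74 : w ^ (7/4 : ℝ) = 2 * (n : ℝ) / (c1 * (M : ℝ) ^ (1/4 : ℝ)) := by
    rw [hw, ← Real.rpow_mul (by positivity)]
    norm_num
  have hw2 : w = (2 / c1) ^ (4/7 : ℝ) * (n : ℝ) ^ (4/7 : ℝ) / (M : ℝ) ^ (1/7 : ℝ) := by
    have e1 : 2 * (n : ℝ) / (c1 * (M : ℝ) ^ (1/4 : ℝ)) = 2 / c1 * n / (M : ℝ) ^ (1/4 : ℝ) := by
      field_simp
    rw [hw, e1, Real.div_rpow (by positivity) (by positivity), Real.mul_rpow (by positivity) hn0.le,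
      ← Real.rpow_mul hM0.le]
    norm_num
  have h7b : 7 * (b : ℝ) ≤ y * (n : ℝ) ^ (4/7 : ℝ) := by
    have h1 : 7 * (b : ℝ) ≤ 14 * w := by linarith
    refine h1.trans ?_
    rw [hw2, mul_div_assoc', div_le_iff₀ (by positivity)]
    calc 14 * ((2 / c1) ^ (4/7 : ℝ) * (n : ℝ) ^ (4/7 : ℝ)) =
        (14 * (2 / c1) ^ (4/7 : ℝ)) * (n : ℝ) ^ (4/7 : ℝ) := by ring
      _ ≤ (y * (M : ℝ) ^ (1/7 : ℝ)) * (n : ℝ) ^ (4/7 : ℝ) :=
          mul_le_mul_of_nonneg_right hMy (by positivity)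
      _ = _ := by ring
  -- the event
  have hs : An (b : ℤ) (3 * (b : ℤ)) ⊆ (bx (4 * (b : ℤ))).edges :=
    an_sub le_rfl (by have : (0 : ℤ) ≤ b := by positivity
                      linarith)
  have hE := hpr a b ha4 hab
  rw [← prob_an hs (Slow c1 b a), hba] at hE
  refine hexp.trans (hE.trans (measureReal_mono ?_ (measure_ne_top _ _)))
  intro ω hω
  obtain ⟨T, t1, t2, t3, t4⟩ := slow_det ha4 hab (shw_cut hs) hω
  have h1 : 2 * (n : ℝ) ≤ T + 3 := by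
    refine le_trans ?_ t4
    have e1 : (b : ℝ) ^ 2 * (a : ℝ) ^ (-(1/4) : ℝ) =
        (b : ℝ) ^ (7/4 : ℝ) * ((b : ℝ) / a) ^ (1/4 : ℝ) := by
      rw [Real.div_rpow hb0.le ha0.le, Real.rpow_neg ha0.le, mul_div_assoc', ← Real.rpow_add hb0]
      norm_num
      rfl
    rw [e1, hba]
    have h2 : w ^ (7/4 : ℝ) ≤ (b : ℝ) ^ (7/4 : ℝ) :=
      Real.rpow_le_rpow (by positivity) hbw (by norm_num)
    rw [hw74, div_le_iff₀ (by positivity)] at h2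
    calc 2 * (n : ℝ) ≤ (b : ℝ) ^ (7/4 : ℝ) * (c1 * (M : ℝ) ^ (1/4 : ℝ)) := h2
      _ = _ := by ring
  have h2 : (n : ℝ) ≤ T := by linarith
  have h3 : n ≤ T := by exact_mod_cast h2
  show reach n ω ≤ y * (n : ℝ) ^ (4/7 : ℝ)
  exact (reach_mono ω h3).trans (t3.trans h7b)

end Pool.Agent.Q218.LZ
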