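import Pool.Agent.Q218.LZ.Tail
import Pool.Agent.Q218.LZ.Abs

/-!
The limit laws along dyadic scales: events which occur infinitely often and eventually.
-/

set_option autoImplicit false

namespace Pool.Agent.Q218.LZ

open H984H H974 Finset H342P H984P MeasureTheory Filter Topology
open Pool.Agent.Q218.ZO Pool.Agent.Q218.DC Pool.Agent.Q218.LL

theorem bc {Ω : Type*} [MeasurableSpace Ω] (P : Measure Ω) [IsProbabilityMeasure P]
    {E : ℕ → Set Ω} {b : ℕ → ℝ} (hb : Summable b) (h : ∀ᶠ j in atTop, P.real (E j) ≤ b j) :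
    ∀ᵐ ω ∂P, ∀ᶠ j in atTop, ω ∉ E j := by
  obtain ⟨k0, hk0⟩ := eventually_atTop.1 h
  have h1 : ∀ᵐ ω ∂P, ∀ᶠ j in atTop, ω ∉ E (j + k0) := by
    refine ae_eventually_notMem ?_
    have hb' : Summable fun j => b (j + k0) := (summable_nat_add_iff k0).2 hb
    refine ne_top_of_le_ne_top hb'.tsum_ofReal_ne_top (ENNReal.tsum_le_tsum fun j => ?_)
    rw [← ofReal_measureReal]
    exact ENNReal.ofReal_le_ofReal (hk0 (j + k0) (by omega))
  filter_upwards [h1] with ω hω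
  obtain ⟨N, hN⟩ := eventually_atTop.1 hω
  refine eventually_atTop.2 ⟨N + k0, fun j hj => ?_⟩
  have := hN (j - k0) (by omega)
  rwa [Nat.sub_add_cancel (by omega)] at this

theorem rep_mul {a b : ℝ} (ha : 0 ≤ a) (ha1 : a ≤ 1) (hb : 0 ≤ b) (hb1 : b ≤ 1)
    (t : unitInterval) : rep b (rep a t) = rep (a * b) t := by
  apply Subtype.ext
  rw [rep_coe hb hb1, rep_coe ha ha1, rep_coe (mul_nonneg ha hb) (mul_le_one₀ ha1 hb hb1)]
  ring

theorem Sc_mul {a b : ℝ} (ha : 0 < a) (ha1 : a ≤ 1) (hb : 0 < b) (hb1 : b ≤ 1)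
    (f : C(unitInterval, ℂ)) : Sc a (Sc b f) = Sc (a * b) f := by
  ext t
  rw [Sc_apply, Sc_apply, Sc_apply, rep_mul ha.le ha1 hb.le hb1, ← mul_assoc,
    ← Complex.ofReal_mul, ← Real.mul_rpow ha.le hb.le]

theorem neg_mul_pos {s : ℝ} (hs : 0 < s) : s ^ (4/7 : ℝ) * s ^ (-(4/7) : ℝ) = 1 := by
  rw [← Real.rpow_add hs]
  norm_num

theorem le_Sc {s : ℝ} (hs : 0 < s) (hs1 : s ≤ 1) (f : C(unitInterval, ℂ)) {t : unitInterval}
    (ht : (t : ℝ) ≤ s) : ‖f t‖ ≤ s ^ (4/7 : ℝ) * ‖Sc s f‖ := by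
  have hu : (t : ℝ) / s ∈ unitInterval := ⟨div_nonneg t.2.1 hs.le, (div_le_one hs).2 ht⟩
  have h1 := (Sc s f).norm_coe_le_norm ⟨(t : ℝ) / s, hu⟩
  have h2 : rep s ⟨(t : ℝ) / s, hu⟩ = t := by
    apply Subtype.ext
    rw [rep_coe hs.le hs1]
    show s * ((t : ℝ) / s) = t
    field_simp
  rw [Sc_apply, h2, norm_mul, Complex.norm_real, Real.norm_eq_abs,
    abs_of_nonneg (by positivity)] at h1
  calc ‖f t‖ = (s ^ (4/7 : ℝ) * s ^ (-(4/7) : ℝ)) * ‖f t‖ := by rw [neg_mul_pos hs, one_mul]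
    _ = s ^ (4/7 : ℝ) * (s ^ (-(4/7) : ℝ) * ‖f t‖) := by ring
    _ ≤ _ := mul_le_mul_of_nonneg_left h1 (by positivity)

theorem exists_Sc {s : ℝ} (hs : 0 < s) (hs1 : s ≤ 1) (f : C(unitInterval, ℂ)) :
    ∃ t : unitInterval, (t : ℝ) ≤ s ∧ ‖f t‖ = s ^ (4/7 : ℝ) * ‖Sc s f‖ := by
  obtain ⟨u, -, hu⟩ := isCompact_univ.exists_isMaxOn (Set.univ_nonempty (α := unitInterval))
    ((Sc s f).continuous.norm.continuousOn)
  have h1 : ‖Sc s f‖ = ‖Sc s f u‖ := by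
    apply le_antisymm _ ((Sc s f).norm_coe_le_norm u)
    rw [ContinuousMap.norm_le _ (norm_nonneg _)]
    exact fun x => hu (Set.mem_univ x)
  refine ⟨rep s u, ?_, ?_⟩
  · rw [rep_coe hs.le hs1]
    calc s * (u : ℝ) ≤ s * 1 := mul_le_mul_of_nonneg_left u.2.2 hs.le
      _ = s := mul_one s
  · rw [h1, Sc_apply, norm_mul, Complex.norm_real, Real.norm_eq_abs,
      abs_of_nonneg (by positivity), ← mul_assoc, neg_mul_pos hs, one_mul]

theorem Sc_mono {s s' : ℝ} (hs : 0 < s) (hss : s ≤ s') (hs1 : s' ≤ 1) (f : C(unitInterval, ℂ)) :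
    s ^ (4/7 : ℝ) * ‖Sc s f‖ ≤ s' ^ (4/7 : ℝ) * ‖Sc s' f‖ := by
  obtain ⟨t, ht, h⟩ := exists_Sc hs (hss.trans hs1) f
  rw [← h]
  exact le_Sc (hs.trans_le hss) hs1 f (ht.trans hss)

theorem Sc_congr {s : ℝ} (hs : 0 ≤ s) (hs1 : s ≤ 1) {f f' : C(unitInterval, ℂ)}
    (h : ∀ t : unitInterval, (t : ℝ) ≤ s → f t = f' t) : Sc s f = Sc s f' := by
  ext t
  rw [Sc_apply, Sc_apply, h]
  rw [rep_coe hs hs1]
  calc s * (t : ℝ) ≤ s * 1 := mul_le_mul_of_nonneg_left t.2.2 hs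
    _ = s := mul_one s

theorem half_pos (k : ℕ) : (0 : ℝ) < (1/2 : ℝ) ^ k := by positivity

theorem half_le (k : ℕ) : (1/2 : ℝ) ^ k ≤ 1 := pow_le_one₀ (by norm_num) (by norm_num)

/-- Integrals along dyadic scales. -/
theorem int_scale (μ : ProbabilityMeasure C(unitInterval, ℂ)) {s : ℝ} (hs : 0 < s)
    {u : C(unitInterval, ℂ) → ℝ} (hu : Continuous u) :
    ∫ f, u (Sc s f) ∂(μ : Measure C(unitInterval, ℂ)) =
      ∫ f, u f ∂(pushS ⟨s, hs⟩ μ : Measure C(unitInterval, ℂ)) := by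
  show _ = ∫ f, u f ∂((μ : Measure C(unitInterval, ℂ)).map (Sc s))
  rw [integral_map (Sc_cont hs).measurable.aemeasurable hu.measurable.aestronglyMeasurable]

theorem real_scale (μ : ProbabilityMeasure C(unitInterval, ℂ)) {s : ℝ} (hs : 0 < s)
    {A : Set C(unitInterval, ℂ)} (hA : MeasurableSet A) :
    (μ : Measure C(unitInterval, ℂ)).real {f | Sc s f ∈ A} =
      (pushS ⟨s, hs⟩ μ : Measure C(unitInterval, ℂ)).real A := by
  rw [measureReal_def, measureReal_def]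
  congr 1
  show _ = ((μ : Measure C(unitInterval, ℂ)).map (Sc s)) A
  rw [Measure.map_apply (Sc_cont hs).measurable hA]
  rfl

/-- **Events at dyadic scales occur infinitely often.** -/
theorem io_lim {μ : ProbabilityMeasure C(unitInterval, ℂ)} (hμ : μ ∈ Lims) {F : ℕ → ℝ → ℝ}
    (hc : ∀ k, Continuous (F k)) (h0 : ∀ k z, 0 ≤ F k z) (h1 : ∀ k z, F k z ≤ 1) {B : ℝ}
    (hB : 1 ≤ B) {k0 : ℕ} (hk0 : 0 < k0)
    (hL : ∀ k, k0 ≤ k → ∀ z z', |F k z - F k z'| ≤ B * (k : ℝ) ^ (1/8 : ℝ) * |z - z'|)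
    (hE : ∀ k, k0 ≤ k → ∀ ν ∈ Lims, (k : ℝ) ^ (-(1/4) : ℝ) ≤
      ∫ f, F k ‖f‖ ∂(ν : Measure C(unitInterval, ℂ))) :
    ∀ᵐ f ∂(μ : Measure C(unitInterval, ℂ)), ∃ᶠ k in atTop, 0 < F k ‖Sc ((1/2 : ℝ) ^ k) f‖ := by
  obtain ⟨C, c, hC, hc', mix⟩ := mixing
  have gc : ∀ k, Continuous fun f : C(unitInterval, ℂ) => F k ‖f‖ := fun k =>
    (hc k).comp continuous_norm
  refine io_abs (μ : Measure C(unitInterval, ℂ)) (g := fun k f => F k ‖Sc ((1/2 : ℝ) ^ k) f‖)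
    (fun k => ((gc k).comp (Sc_cont (half_pos k))).measurable) (fun k f => h0 _ _)
    (fun k f => h1 _ _) (C := C * B) (r := (1/2 : ℝ) ^ c) (by positivity) (by positivity)
    (Real.rpow_lt_one (by norm_num) (by norm_num) hc') hk0 ?_ ?_
  · intro k hk
    show _ ≤ ∫ f, F k ‖Sc ((1/2 : ℝ) ^ k) f‖ ∂(μ : Measure C(unitInterval, ℂ))
    rw [int_scale μ (half_pos k) (gc k)]
    exact hE k hk _ (Lims_scale hμ (half_pos k) (half_le k))
  · intro j k hj hjk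
    set s : ℝ := (1/2 : ℝ) ^ (k - j) with hs
    have hs0 : 0 < s := half_pos _
    have hs1 : s ≤ 1 := half_le _
    have hcomp : ∀ f, Sc ((1/2 : ℝ) ^ k) f = Sc s (Sc ((1/2 : ℝ) ^ j) f) := by
      intro f
      rw [Sc_mul hs0 hs1 (half_pos j) (half_le j), hs, ← pow_add]
      congr 2
      omega
    set ν := pushS ⟨(1/2 : ℝ) ^ j, half_pos j⟩ μ with hν
    have hνL : ν ∈ Lims := Lims_scale hμ (half_pos j) (half_le j)
    have hk' : (0 : ℝ) ≤ k := by positivity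
    have hj1 : (1 : ℝ) ≤ j := by exact_mod_cast (Nat.succ_le_of_lt hk0).trans hj
    set L : ℝ := B * (j : ℝ) ^ (1/8 : ℝ) with hLd
    have hL1 : 1 ≤ L := by
      have : (1 : ℝ) ≤ (j : ℝ) ^ (1/8 : ℝ) := Real.one_le_rpow hj1 (by norm_num)
      nlinarith
    have hL0 : 0 < L := by linarith
    have cS : Continuous fun f : C(unitInterval, ℂ) => F k ‖Sc s f‖ := (gc k).comp (Sc_cont hs0)
    have m1 := mix ν hνL s hs0 hs1 (fun f => F k ‖Sc s f‖) cS
      (fun f => by rw [abs_of_nonneg (h0 _ _)]; exact h1 _ _)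
      (fun f f' h => by
        show F k ‖Sc s f‖ = F k ‖Sc s f'‖
        rw [Sc_congr hs0.le hs1 h])
      (fun f => L⁻¹ * F j ‖f‖) (fun f => by
        rw [abs_mul, abs_of_pos (inv_pos.2 hL0), inv_mul_le_iff₀ hL0, mul_one,
          abs_of_nonneg (h0 _ _)]
        exact (h1 _ _).trans hL1) (fun f f' => by
        rw [← mul_sub, abs_mul, abs_of_pos (inv_pos.2 hL0), inv_mul_le_iff₀ hL0]
        refine (hL j hj _ _).trans ?_
        refine mul_le_mul_of_nonneg_left ?_ hL0.le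
        rw [dist_eq_norm]
        exact abs_norm_sub_norm_le f f')
    have e1 : ∫ f, F k ‖Sc s f‖ * (L⁻¹ * F j ‖f‖) ∂(ν : Measure C(unitInterval, ℂ)) =
        L⁻¹ * ∫ f, F j ‖Sc ((1/2 : ℝ) ^ j) f‖ * F k ‖Sc ((1/2 : ℝ) ^ k) f‖
          ∂(μ : Measure C(unitInterval, ℂ)) := by
      rw [hν, ← int_scale μ (half_pos j) (u := fun f => F k ‖Sc s f‖ * (L⁻¹ * F j ‖f‖))
        (cS.mul ((gc j).const_mul _)), ← integral_const_mul]
      apply integral_congr_ae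
      refine Eventually.of_forall fun f => ?_
      show F k ‖Sc s (Sc ((1/2 : ℝ) ^ j) f)‖ * (L⁻¹ * F j ‖Sc ((1/2 : ℝ) ^ j) f‖) = _
      rw [← hcomp]
      ring
    have e2 : ∫ f, F k ‖Sc s f‖ ∂(ν : Measure C(unitInterval, ℂ)) =
        ∫ f, F k ‖Sc ((1/2 : ℝ) ^ k) f‖ ∂(μ : Measure C(unitInterval, ℂ)) := by
      rw [hν, ← int_scale μ (half_pos j) (u := fun f => F k ‖Sc s f‖) cS]
      apply integral_congr_ae
      refine Eventually.of_forall fun f => ?_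
      show F k ‖Sc s (Sc ((1/2 : ℝ) ^ j) f)‖ = _
      rw [← hcomp]
    have e3 : ∫ f, L⁻¹ * F j ‖f‖ ∂(ν : Measure C(unitInterval, ℂ)) =
        L⁻¹ * ∫ f, F j ‖Sc ((1/2 : ℝ) ^ j) f‖ ∂(μ : Measure C(unitInterval, ℂ)) := by
      rw [integral_const_mul, hν, ← int_scale μ (half_pos j) (gc j)]
    rw [e1, e2, e3] at m1
    have e4 : ∀ x y z : ℝ, L⁻¹ * x - y * (L⁻¹ * z) = L⁻¹ * (x - z * y) := fun x y z => by ring
    rw [e4, abs_mul, abs_of_pos (inv_pos.2 hL0), inv_mul_le_iff₀ hL0] at m1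
    refine m1.trans ?_
    have e5 : s ^ c = ((1/2 : ℝ) ^ c) ^ (k - j) := by
      rw [hs, ← Real.rpow_natCast, ← Real.rpow_natCast, ← Real.rpow_mul (by norm_num),
        ← Real.rpow_mul (by norm_num), mul_comm]
    rw [e5, hLd]
    have hjk' : (j : ℝ) ^ (1/8 : ℝ) ≤ (k : ℝ) ^ (1/8 : ℝ) :=
      Real.rpow_le_rpow (by linarith) (by exact_mod_cast hjk.le) (by norm_num)
    have hr0 : 0 ≤ ((1/2 : ℝ) ^ c) ^ (k - j) := by positivity
    calc B * (j : ℝ) ^ (1/8 : ℝ) * (C * ((1/2 : ℝ) ^ c) ^ (k - j))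
        = (C * B * ((1/2 : ℝ) ^ c) ^ (k - j)) * (j : ℝ) ^ (1/8 : ℝ) := by ring
      _ ≤ (C * B * ((1/2 : ℝ) ^ c) ^ (k - j)) * (k : ℝ) ^ (1/8 : ℝ) :=
          mul_le_mul_of_nonneg_left hjk' (by positivity)
      _ = _ := by ring

theorem log_atTop : Tendsto (fun k : ℕ => Real.log (k : ℝ)) atTop atTop :=
  Real.tendsto_log_atTop.comp tendsto_natCast_atTop_atTop

theorem clamp_lip (x y : ℝ) : |H984N.clamp x - H984N.clamp y| ≤ |x - y| := by
  unfold H984N.clamp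
  rw [max_comm 0 (min 1 x), max_comm 0 (min 1 y)]
  refine (abs_max_sub_max_le_abs _ _ _).trans ((abs_min_sub_min_le_max _ _ _ _).trans ?_)
  simp

theorem clamp_cont : Continuous H984N.clamp := by
  unfold H984N.clamp
  fun_prop

theorem clamp_nonneg (x : ℝ) : 0 ≤ H984N.clamp x := le_max_left _ _

theorem clamp_le_one (x : ℝ) : H984N.clamp x ≤ 1 := max_le zero_le_one (min_le_left _ _)

theorem clamp_pos {x : ℝ} (h : 0 < H984N.clamp x) : 0 < x := by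
  by_contra hcon
  rw [H984N.pl_clamp_zero (not_lt.1 hcon)] at h
  exact lt_irrefl _ h

/-- The probability of `{f ∈ A}` is at most the integral of a function which is `1` on `A`. -/
theorem prob_le_int (ν : ProbabilityMeasure C(unitInterval, ℂ)) {A : Set C(unitInterval, ℂ)}
    (hA : MeasurableSet A) {u : C(unitInterval, ℂ) → ℝ} (hu : Continuous u) (h0 : ∀ f, 0 ≤ u f)
    (h1 : ∀ f, u f ≤ 1) (h : ∀ f ∈ A, u f = 1) :
    (ν : Measure C(unitInterval, ℂ)).real A ≤ ∫ f, u f ∂(ν : Measure C(unitInterval, ℂ)) := by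
  have iu : Integrable u (ν : Measure C(unitInterval, ℂ)) :=
    Integrable.of_bound hu.measurable.aestronglyMeasurable 1 (Eventually.of_forall fun f => by
      rw [Real.norm_eq_abs, abs_of_nonneg (h0 f)]; exact h1 f)
  have h2 : (ν : Measure C(unitInterval, ℂ)).real A =
      ∫ f, A.indicator (fun _ => (1 : ℝ)) f ∂(ν : Measure C(unitInterval, ℂ)) := by
    rw [integral_indicator_const _ hA]
    simp
  rw [h2]
  apply integral_mono ((integrable_const (1 : ℝ)).indicator hA) iu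
  intro f
  by_cases hf : f ∈ A
  · rw [Set.indicator_of_mem hf]
    exact (h f hf).ge
  · rw [Set.indicator_of_notMem hf]
    exact h0 f

end Pool.Agent.Q218.LZ
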