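import Pool.Agent.Q218.LZ.Dy

/-!
Dyadic scales: the four one-sided statements for the maximal distance from the origin.
-/

set_option autoImplicit false

namespace Pool.Agent.Q218.LZ

open H984H H974 Finset H342P H984P MeasureTheory Filter Topology
open Pool.Agent.Q218.ZO Pool.Agent.Q218.DC Pool.Agent.Q218.LL

theorem exp_log_half {k : ℕ} (hk : 0 < k) (q : ℝ) :
    Real.exp (-(q * Real.log k)) = (k : ℝ) ^ (-q) := by
  have hk0 : (0 : ℝ) < k := by exact_mod_cast hk
  rw [Real.rpow_def_of_pos hk0]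
  congr 1
  ring

theorem fast_io {D x0 : ℝ} (hD : 0 < D)
    (h : ∀ μ ∈ Lims, ∀ x : ℝ, x0 ≤ x → Real.exp (-(D * x ^ (7/3 : ℝ))) ≤
      (μ : Measure C(unitInterval, ℂ)).real {f | x ≤ ‖f‖}) :
    ∃ b : ℝ, 0 < b ∧ ∀ μ ∈ Lims, ∀ᵐ f ∂(μ : Measure C(unitInterval, ℂ)), ∃ᶠ k : ℕ in atTop,
      b * (Real.log k) ^ (3/7 : ℝ) ≤ ‖Sc ((1/2 : ℝ) ^ k) f‖ := by
  refine ⟨(1 / (4 * D)) ^ (3/7 : ℝ) / 2, by positivity, fun μ hμ => ?_⟩
  set x : ℕ → ℝ := fun k => (Real.log k / (4 * D)) ^ (3/7 : ℝ) with hx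
  have hxt : Tendsto x atTop atTop :=
    (tendsto_rpow_atTop (by norm_num)).comp (log_atTop.atTop_div_const (by positivity))
  obtain ⟨k0, hk0⟩ := eventually_atTop.1 ((hxt.eventually_ge_atTop (max x0 2)).and
    ((log_atTop.eventually_ge_atTop 1).and (eventually_ge_atTop 1)))
  have hk01 : 0 < k0 := (hk0 k0 le_rfl).2.2
  have h1 := io_lim hμ (F := fun k z => H984N.clamp (z - x k + 1))
    (fun k => clamp_cont.comp (by fun_prop)) (fun k z => clamp_nonneg _)
    (fun k z => clamp_le_one _) (B := 1) le_rfl hk01 (fun k hk z z' => by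
      refine (clamp_lip _ _).trans ?_
      have e : z - x k + 1 - (z' - x k + 1) = z - z' := by ring
      rw [e, one_mul]
      have hk1 : (1 : ℝ) ≤ k := by exact_mod_cast (Nat.succ_le_of_lt hk01).trans hk
      have : (1 : ℝ) ≤ (k : ℝ) ^ (1/8 : ℝ) := Real.one_le_rpow hk1 (by norm_num)
      exact le_mul_of_one_le_left (abs_nonneg _) this) (fun k hk ν hν => by
      obtain ⟨g1, g2, g3⟩ := hk0 k hk
      have g4 := h ν hν (x k) ((le_max_left _ _).trans g1)
      have e1 : (x k) ^ (7/3 : ℝ) = Real.log k / (4 * D) := by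
        show ((Real.log k / (4 * D)) ^ (3/7 : ℝ)) ^ (7/3 : ℝ) = _
        rw [← Real.rpow_mul (by positivity)]
        norm_num
      have e2 : D * (x k) ^ (7/3 : ℝ) = 1/4 * Real.log k := by
        rw [e1]
        field_simp
      rw [e2, exp_log_half g3] at g4
      refine g4.trans ?_
      refine prob_le_int ν (isClosed_le continuous_const continuous_norm).measurableSet
        (clamp_cont.comp (by fun_prop)) (fun f => clamp_nonneg _) (fun f => clamp_le_one _)
        (fun f hf => ?_)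
      have hf' : x k ≤ ‖f‖ := hf
      exact H984N.pl_clamp_one (by linarith))
  filter_upwards [h1] with f hf
  refine (hf.and_eventually (eventually_ge_atTop k0)).mono fun k hk => ?_
  have h2 := clamp_pos hk.1
  obtain ⟨g1, g2, g3⟩ := hk0 k hk.2
  have h3 : 2 ≤ x k := (le_max_right _ _).trans g1
  have e : (1 / (4 * D)) ^ (3/7 : ℝ) / 2 * (Real.log k) ^ (3/7 : ℝ) = x k / 2 := by
    show _ = (Real.log k / (4 * D)) ^ (3/7 : ℝ) / 2
    rw [div_eq_mul_one_div (Real.log k), Real.mul_rpow (by linarith) (by positivity)]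
    ring
  rw [e]
  linarith

theorem slow_io {D y0 : ℝ} (hD : 0 < D) (hy0 : 0 < y0)
    (h : ∀ μ ∈ Lims, ∀ y : ℝ, 0 < y → y ≤ y0 → Real.exp (-(D / y ^ 14)) ≤
      (μ : Measure C(unitInterval, ℂ)).real {f | ‖f‖ ≤ y}) :
    ∃ b : ℝ, 0 < b ∧ ∀ μ ∈ Lims, ∀ᵐ f ∂(μ : Measure C(unitInterval, ℂ)), ∃ᶠ k : ℕ in atTop,
      ‖Sc ((1/2 : ℝ) ^ k) f‖ ≤ b * (Real.log k) ^ (-(1/14) : ℝ) := by
  refine ⟨2 * (1 / (4 * D)) ^ (-(1/14) : ℝ), by positivity, fun μ hμ => ?_⟩
  set w : ℕ → ℝ := fun k => (Real.log k / (4 * D)) ^ (1/14 : ℝ) with hw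
  have hwt : Tendsto w atTop atTop :=
    (tendsto_rpow_atTop (by norm_num)).comp (log_atTop.atTop_div_const (by positivity))
  obtain ⟨k0, hk0⟩ := eventually_atTop.1 ((hwt.eventually_ge_atTop (max y0⁻¹ 1)).and
    ((log_atTop.eventually_ge_atTop 1).and (eventually_ge_atTop 1)))
  have hk01 : 0 < k0 := (hk0 k0 le_rfl).2.2
  set B : ℝ := max 1 ((1 / (4 * D)) ^ (1/14 : ℝ)) with hB
  have h1 := io_lim hμ (F := fun k z => H984N.clamp (2 - w k * z))
    (fun k => clamp_cont.comp (by fun_prop)) (fun k z => clamp_nonneg _)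
    (fun k z => clamp_le_one _) (B := B) (le_max_left _ _) hk01 (fun k hk z z' => by
      refine (clamp_lip _ _).trans ?_
      have e : 2 - w k * z - (2 - w k * z') = w k * (z' - z) := by ring
      obtain ⟨g1, g2, g3⟩ := hk0 k hk
      have hw0 : 0 ≤ w k := by
        have := (le_max_right _ _).trans g1
        linarith
      rw [e, abs_mul, abs_of_nonneg hw0, abs_sub_comm]
      refine mul_le_mul_of_nonneg_right ?_ (abs_nonneg _)
      have hk1 : (1 : ℝ) ≤ k := by exact_mod_cast g3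
      show (Real.log k / (4 * D)) ^ (1/14 : ℝ) ≤ _
      rw [div_eq_mul_one_div, Real.mul_rpow (by linarith) (by positivity), mul_comm]
      refine mul_le_mul (le_max_right _ _) ?_ (by positivity) (by positivity)
      calc (Real.log k) ^ (1/14 : ℝ) ≤ (k : ℝ) ^ (1/14 : ℝ) :=
            Real.rpow_le_rpow (by linarith) ((Real.log_le_sub_one_of_pos (by linarith)).trans
              (by linarith)) (by norm_num)
        _ ≤ (k : ℝ) ^ (1/8 : ℝ) := Real.rpow_le_rpow_of_exponent_le hk1 (by norm_num))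
      (fun k hk ν hν => by
      obtain ⟨g1, g2, g3⟩ := hk0 k hk
      have hw1 : 1 ≤ w k := (le_max_right _ _).trans g1
      have hw0 : 0 < w k := by linarith
      have hwy : (w k)⁻¹ ≤ y0 := by
        rw [inv_le_comm₀ hw0 hy0]
        exact (le_max_left _ _).trans g1
      have g4 := h ν hν (w k)⁻¹ (inv_pos.2 hw0) hwy
      have e1 : (w k) ^ 14 = Real.log k / (4 * D) := by
        show ((Real.log k / (4 * D)) ^ (1/14 : ℝ)) ^ 14 = _
        rw [← Real.rpow_natCast, ← Real.rpow_mul (by positivity)]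
        norm_num
      have e2 : D / (w k)⁻¹ ^ 14 = 1/4 * Real.log k := by
        rw [inv_pow, div_inv_eq_mul, e1]
        field_simp
      rw [e2, exp_log_half g3] at g4
      refine g4.trans ?_
      refine prob_le_int ν (isClosed_le continuous_norm continuous_const).measurableSet
        (clamp_cont.comp (by fun_prop)) (fun f => clamp_nonneg _) (fun f => clamp_le_one _)
        (fun f hf => ?_)
      have hf' : ‖f‖ ≤ (w k)⁻¹ := hf
      have h2 : w k * ‖f‖ ≤ 1 := by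
        calc w k * ‖f‖ ≤ w k * (w k)⁻¹ := mul_le_mul_of_nonneg_left hf' hw0.le
          _ = 1 := mul_inv_cancel₀ hw0.ne'
      exact H984N.pl_clamp_one (by linarith))
  filter_upwards [h1] with f hf
  refine (hf.and_eventually (eventually_ge_atTop k0)).mono fun k hk => ?_
  have h2 := clamp_pos hk.1
  obtain ⟨g1, g2, g3⟩ := hk0 k hk.2
  have hw1 : 1 ≤ w k := (le_max_right _ _).trans g1
  have hw0 : 0 < w k := by linarith
  have e : 2 * (1 / (4 * D)) ^ (-(1/14) : ℝ) * (Real.log k) ^ (-(1/14) : ℝ) = 2 * (w k)⁻¹ := by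
    show _ = 2 * ((Real.log k / (4 * D)) ^ (1/14 : ℝ))⁻¹
    rw [← Real.rpow_neg (by positivity), div_eq_mul_one_div (Real.log k),
      Real.mul_rpow (by linarith) (by positivity)]
    ring
  rw [e, ← div_eq_mul_inv, le_div_iff₀ hw0]
  linarith

theorem fast_ev {a A : ℝ} (ha : 0 < a)
    (h : ∀ μ ∈ Lims, ∀ x : ℝ, 0 < x → (μ : Measure C(unitInterval, ℂ)).real {f | x < ‖f‖} ≤
      A * Real.exp (-(a * x ^ (7/3 : ℝ)))) :
    ∃ b : ℝ, 0 < b ∧ ∀ μ ∈ Lims, ∀ᵐ f ∂(μ : Measure C(unitInterval, ℂ)), ∀ᶠ k : ℕ in atTop,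
      ‖Sc ((1/2 : ℝ) ^ k) f‖ ≤ b * (Real.log k) ^ (3/7 : ℝ) := by
  refine ⟨(2 / a) ^ (3/7 : ℝ), by positivity, fun μ hμ => ?_⟩
  have h1 := bc (μ : Measure C(unitInterval, ℂ))
    (E := fun k => {f | Sc ((1/2 : ℝ) ^ k) f ∈ {f' : C(unitInterval, ℂ) |
      (2 / a) ^ (3/7 : ℝ) * (Real.log k) ^ (3/7 : ℝ) < ‖f'‖}})
    (b := fun k => A * (k : ℝ) ^ (-2 : ℝ))
    ((Real.summable_nat_rpow.2 (by norm_num)).mul_left A) (by
      filter_upwards [log_atTop.eventually_ge_atTop 1, eventually_ge_atTop 1] with k hk hk1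
      have hx : 0 < (2 / a) ^ (3/7 : ℝ) * (Real.log k) ^ (3/7 : ℝ) :=
        mul_pos (by positivity) (Real.rpow_pos_of_pos (by linarith) _)
      refine (real_scale μ (half_pos k) (A := {f' : C(unitInterval, ℂ) |
        (2 / a) ^ (3/7 : ℝ) * (Real.log k) ^ (3/7 : ℝ) < ‖f'‖})
        (isOpen_lt continuous_const continuous_norm).measurableSet).le.trans ?_
      refine (h _ (Lims_scale hμ (half_pos k) (half_le k)) _ hx).trans (le_of_eq ?_)
      rw [← exp_log_half hk1]
      congr 3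
      rw [← Real.mul_rpow (by positivity) (by linarith), ← Real.rpow_mul
        (mul_nonneg (by positivity) (by linarith))]
      norm_num
      field_simp)
  filter_upwards [h1] with f hf
  filter_upwards [hf] with k hk
  exact not_lt.1 hk

theorem slow_ev {a A : ℝ} (ha : 0 < a)
    (h : ∀ μ ∈ Lims, ∀ y : ℝ, 0 < y → (μ : Measure C(unitInterval, ℂ)).real {f | ‖f‖ < y} ≤
      A * Real.exp (-(a / y ^ 14))) :
    ∃ b : ℝ, 0 < b ∧ ∀ μ ∈ Lims, ∀ᵐ f ∂(μ : Measure C(unitInterval, ℂ)), ∀ᶠ k : ℕ in atTop,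
      b * (Real.log k) ^ (-(1/14) : ℝ) ≤ ‖Sc ((1/2 : ℝ) ^ k) f‖ := by
  refine ⟨(2 / a) ^ (-(1/14) : ℝ), by positivity, fun μ hμ => ?_⟩
  have h1 := bc (μ : Measure C(unitInterval, ℂ))
    (E := fun k => {f | Sc ((1/2 : ℝ) ^ k) f ∈ {f' : C(unitInterval, ℂ) |
      ‖f'‖ < (2 / a) ^ (-(1/14) : ℝ) * (Real.log k) ^ (-(1/14) : ℝ)}})
    (b := fun k => A * (k : ℝ) ^ (-2 : ℝ))
    ((Real.summable_nat_rpow.2 (by norm_num)).mul_left A) (by
      filter_upwards [log_atTop.eventually_ge_atTop 1, eventually_ge_atTop 1] with k hk hk1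
      have hk0 : 0 < Real.log k := by linarith
      have hx : 0 < (2 / a) ^ (-(1/14) : ℝ) * (Real.log k) ^ (-(1/14) : ℝ) :=
        mul_pos (by positivity) (Real.rpow_pos_of_pos hk0 _)
      refine (real_scale μ (half_pos k) (A := {f' : C(unitInterval, ℂ) |
        ‖f'‖ < (2 / a) ^ (-(1/14) : ℝ) * (Real.log k) ^ (-(1/14) : ℝ)})
        (isOpen_lt continuous_norm continuous_const).measurableSet).le.trans ?_
      refine (h _ (Lims_scale hμ (half_pos k) (half_le k)) _ hx).trans (le_of_eq ?_)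
      rw [← exp_log_half hk1]
      have e : ((2 / a) ^ (-(1/14) : ℝ) * (Real.log k) ^ (-(1/14) : ℝ)) ^ 14 =
          (2 / a * Real.log k)⁻¹ := by
        rw [← Real.mul_rpow (by positivity) hk0.le, ← Real.rpow_natCast,
          ← Real.rpow_mul (by positivity)]
        norm_num [Real.rpow_neg_one]
      rw [e, div_inv_eq_mul]
      congr 3
      field_simp)
  filter_upwards [h1] with f hf
  filter_upwards [hf] with k hk
  exact not_lt.1 hk

end Pool.Agent.Q218.LZ
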