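import Pool.Agent.Q218.LZ.Four

/-!
Laws of the iterated logarithm at the starting point, with non-random constants, for every limit
law.
-/

set_option autoImplicit false

namespace Pool.Agent.Q218.LZ

open H984H H974 Finset H342P H984P MeasureTheory Filter Topology
open Pool.Agent.Q218.ZO Pool.Agent.Q218.DC Pool.Agent.Q218.LL
open TH992.L (ll ll_lower ll_upper)

/-- The rescaled maximum of the curve up to time `1 / n`. -/
noncomputable def V (f : C(unitInterval, ℂ)) (n : ℕ) : ℝ := ‖Sc (1 / (n : ℝ)) f‖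

theorem V_meas (n : ℕ) : Measurable fun f => V f n := by
  rcases Nat.eq_zero_or_pos n with h | h
  · have : (fun f => V f n) = fun _ => 0 := by
      funext f
      unfold V Sc
      rw [h, Nat.cast_zero, div_zero, Real.zero_rpow (by norm_num), Complex.ofReal_zero]
      have e : (0 : ℂ) • f.comp (rep 0) = 0 := by
        ext t
        show (0 : ℂ) * _ = 0
        exact zero_mul _
      rw [e, norm_zero]
    rw [this]
    exact measurable_const
  · have h0 : (0 : ℝ) < 1 / n := by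
      have : (0 : ℝ) < n := by exact_mod_cast h
      positivity
    exact (continuous_norm.comp (Sc_cont h0)).measurable

theorem V_nonneg (f : C(unitInterval, ℂ)) (n : ℕ) : 0 ≤ V f n := norm_nonneg _

theorem V_pow (f : C(unitInterval, ℂ)) (k : ℕ) : V f (2 ^ k) = ‖Sc ((1/2 : ℝ) ^ k) f‖ := by
  unfold V
  rw [one_div_pow]
  push_cast
  rfl

theorem V_germ {f f' : C(unitInterval, ℂ)} (h : ∃ s : unitInterval, 0 < s ∧ ∀ t ≤ s, f t = f' t) :
    ∀ᶠ n in atTop, V f n = V f' n := by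
  obtain ⟨s, hs, h⟩ := h
  have hs' : (0 : ℝ) < s := hs
  have h1 : Tendsto (fun n : ℕ => 1 / (n : ℝ)) atTop (𝓝 0) := tendsto_one_div_atTop_nhds_zero_nat
  filter_upwards [h1.eventually (gt_mem_nhds hs'), eventually_ge_atTop 1] with n hn hn1
  unfold V
  rw [Sc_congr (f := f) (f' := f') (by positivity) (hn.le.trans s.2.2)
    (fun t ht => h t (Subtype.coe_le_coe.1 (ht.trans hn.le)))]

theorem LS_congr {φ U U' : ℕ → ℝ} (h : ∀ᶠ n in atTop, U n = U' n) {q : ℝ} :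
    ZO.LS φ U q ↔ ZO.LS φ U' q := by
  unfold ZO.LS
  refine forall_congr' fun k => ?_
  refine eventually_congr ?_
  filter_upwards [h] with n hn
  rw [hn]

theorem zero_one {μ : ProbabilityMeasure C(unitInterval, ℂ)} (hμ : μ ∈ Lims) (φ : ℕ → ℝ)
    (σ : ℝ) (q : ℝ) :
    (μ : Measure C(unitInterval, ℂ)) {f | ZO.LS φ (fun n => σ * V f n) q} = 0 ∨
      (μ : Measure C(unitInterval, ℂ)) {f | ZO.LS φ (fun n => σ * V f n) q} = 1 := by
  refine germ hμ (LS_meas' (fun n => (V_meas n).const_mul σ) q) fun f f' hf => ?_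
  show ZO.LS φ (fun n => σ * V f n) q ↔ ZO.LS φ (fun n => σ * V f' n) q
  apply LS_congr
  filter_upwards [V_germ hf] with n hn
  rw [hn]

theorem ll_atTop : Tendsto (fun n : ℕ => ll n) atTop atTop :=
  Real.tendsto_log_atTop.comp log_atTop

theorem V_up {f : C(unitInterval, ℂ)} {n k : ℕ} (hkn : 2 ^ k ≤ n) (hnk : n < 2 ^ (k + 1)) :
    V f n ≤ 2 * ‖Sc ((1/2 : ℝ) ^ k) f‖ := by
  have h2k : (0 : ℝ) < 2 ^ k := by positivity
  have hn1 : ((2 : ℝ) ^ k) ≤ n := by exact_mod_cast hkn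
  have hn2 : (n : ℝ) < 2 ^ (k + 1) := by exact_mod_cast hnk
  have hn0 : (0 : ℝ) < n := by linarith
  have hs : 1 / (n : ℝ) ≤ (1/2 : ℝ) ^ k := by
    rw [one_div_pow]
    exact one_div_le_one_div_of_le h2k hn1
  have h1 := Sc_mono (s := 1 / (n : ℝ)) (by positivity) hs (half_le k) f
  have h2 : (0 : ℝ) < (1 / (n : ℝ)) ^ (4/7 : ℝ) := by positivity
  have h3 : ((1/2 : ℝ) ^ k) ^ (4/7 : ℝ) ≤ 2 * (1 / (n : ℝ)) ^ (4/7 : ℝ) := by
    have h4 : (1/2 : ℝ) ^ k ≤ 2 * (1 / (n : ℝ)) := by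
      rw [one_div_pow, mul_one_div, div_le_div_iff₀ h2k hn0, one_mul]
      rw [pow_succ] at hn2
      linarith
    calc ((1/2 : ℝ) ^ k) ^ (4/7 : ℝ) ≤ (2 * (1 / (n : ℝ))) ^ (4/7 : ℝ) :=
          Real.rpow_le_rpow (by positivity) h4 (by norm_num)
      _ = 2 ^ (4/7 : ℝ) * (1 / (n : ℝ)) ^ (4/7 : ℝ) := Real.mul_rpow (by norm_num) (by positivity)
      _ ≤ _ := by
          refine mul_le_mul_of_nonneg_right ?_ h2.le
          calc (2 : ℝ) ^ (4/7 : ℝ) ≤ 2 ^ (1 : ℝ) :=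
                Real.rpow_le_rpow_of_exponent_le (by norm_num) (by norm_num)
            _ = 2 := Real.rpow_one 2
  have h5 : (1 / (n : ℝ)) ^ (4/7 : ℝ) * V f n ≤
      (1 / (n : ℝ)) ^ (4/7 : ℝ) * (2 * ‖Sc ((1/2 : ℝ) ^ k) f‖) := by
    refine h1.trans ?_
    calc ((1/2 : ℝ) ^ k) ^ (4/7 : ℝ) * ‖Sc ((1/2 : ℝ) ^ k) f‖
        ≤ (2 * (1 / (n : ℝ)) ^ (4/7 : ℝ)) * ‖Sc ((1/2 : ℝ) ^ k) f‖ :=
          mul_le_mul_of_nonneg_right h3 (norm_nonneg _)
      _ = _ := by ring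
  exact le_of_mul_le_mul_left h5 h2

theorem V_low {f : C(unitInterval, ℂ)} {n k : ℕ} (hkn : 2 ^ k ≤ n) (hnk : n < 2 ^ (k + 1)) :
    ‖Sc ((1/2 : ℝ) ^ (k + 1)) f‖ / 2 ≤ V f n := by
  have h2k : (0 : ℝ) < 2 ^ k := by positivity
  have hn1 : ((2 : ℝ) ^ k) ≤ n := by exact_mod_cast hkn
  have hn2 : (n : ℝ) < 2 ^ (k + 1) := by exact_mod_cast hnk
  have hn0 : (0 : ℝ) < n := by linarith
  have h1n : (1 : ℝ) ≤ n := by
    have : 1 ≤ n := Nat.one_le_two_pow.trans hkn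
    exact_mod_cast this
  have hs : (1/2 : ℝ) ^ (k + 1) ≤ 1 / (n : ℝ) := by
    rw [one_div_pow]
    exact one_div_le_one_div_of_le hn0 hn2.le
  have h1 := Sc_mono (half_pos (k + 1)) hs ((div_le_one hn0).2 h1n) f
  have h2 : (0 : ℝ) < ((1/2 : ℝ) ^ (k + 1)) ^ (4/7 : ℝ) := by positivity
  have h3 : (1 / (n : ℝ)) ^ (4/7 : ℝ) ≤ 2 * ((1/2 : ℝ) ^ (k + 1)) ^ (4/7 : ℝ) := by
    have h4 : 1 / (n : ℝ) ≤ 2 * (1/2 : ℝ) ^ (k + 1) := by
      rw [pow_succ, one_div_pow, mul_one_div, div_eq_mul_one_div]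
      have : 1 / (n : ℝ) ≤ 1 / 2 ^ k := one_div_le_one_div_of_le h2k hn1
      calc 1 * (1 / (n : ℝ)) ≤ 1 / 2 ^ k := by rw [one_mul]; exact this
        _ = _ := by ring
    calc (1 / (n : ℝ)) ^ (4/7 : ℝ) ≤ (2 * (1/2 : ℝ) ^ (k + 1)) ^ (4/7 : ℝ) :=
          Real.rpow_le_rpow (by positivity) h4 (by norm_num)
      _ = 2 ^ (4/7 : ℝ) * ((1/2 : ℝ) ^ (k + 1)) ^ (4/7 : ℝ) :=
          Real.mul_rpow (by norm_num) (by positivity)
      _ ≤ _ := by
          refine mul_le_mul_of_nonneg_right ?_ h2.le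
          calc (2 : ℝ) ^ (4/7 : ℝ) ≤ 2 ^ (1 : ℝ) :=
                Real.rpow_le_rpow_of_exponent_le (by norm_num) (by norm_num)
            _ = 2 := Real.rpow_one 2
  have h5 : ((1/2 : ℝ) ^ (k + 1)) ^ (4/7 : ℝ) * ‖Sc ((1/2 : ℝ) ^ (k + 1)) f‖ ≤
      ((1/2 : ℝ) ^ (k + 1)) ^ (4/7 : ℝ) * (2 * V f n) := by
    refine h1.trans ?_
    calc (1 / (n : ℝ)) ^ (4/7 : ℝ) * V f n
        ≤ (2 * ((1/2 : ℝ) ^ (k + 1)) ^ (4/7 : ℝ)) * V f n :=
          mul_le_mul_of_nonneg_right h3 (V_nonneg _ _)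
      _ = _ := by ring
  have h6 := le_of_mul_le_mul_left h5 h2
  linarith

/-- The largest values. -/
theorem fast_const : ∃ c C : ℝ, 0 < c ∧ ∀ μ ∈ Lims, ∃ K : ℝ, c ≤ K ∧ K ≤ C ∧
    ∀ᵐ f ∂(μ : Measure C(unitInterval, ℂ)), ∀ ε : ℝ, 0 < ε →
      (∀ᶠ n in atTop, V f n ≤ (K + ε) * (ll n) ^ (3/7 : ℝ)) ∧
      ∃ᶠ n in atTop, (K - ε) * (ll n) ^ (3/7 : ℝ) ≤ V f n := by
  obtain ⟨a, A, D, x0, y0, ha, hA, hD, hx0, hy0, ht⟩ := tails
  obtain ⟨b, hb, h1⟩ := fast_ev (A := A) ha (fun μ hμ => (ht μ hμ).1)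
  obtain ⟨b', hb', h2⟩ := fast_io (x0 := x0) hD (fun μ hμ => (ht μ hμ).2.1)
  refine ⟨b', 4 * b, hb', fun μ hμ => ?_⟩
  have hφ : ∀ᶠ n in atTop, 0 < (ll n) ^ (3/7 : ℝ) := by
    filter_upwards [ll_atTop.eventually_ge_atTop 1] with n hn
    exact Real.rpow_pos_of_pos (by linarith) _
  obtain ⟨K, hK1, hK2, hK⟩ := const_gen (μ : Measure C(unitInterval, ℂ)) (c := b') (C := 4 * b)
    hφ (U := fun f n => 1 * V f n) (zero_one hμ _ 1) (fun n => (V_meas n).const_mul 1) (by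
      filter_upwards [h1 μ hμ] with f hf
      have hf' := Mom_log_tendsto.eventually (hf.and (eventually_ge_atTop 7))
      filter_upwards [hf', eventually_ge_atTop 2, ll_atTop.eventually_ge_atTop 1] with n hn hn2 hn3
      obtain ⟨g1, g2⟩ := hn
      obtain ⟨g3, g4⟩ := TH992.L.log2 (n := n) (by omega)
      have g5 := ll_lower g2 g3
      have g6 : (Real.log (Nat.log 2 n)) ^ (3/7 : ℝ) ≤ 2 * (ll n) ^ (3/7 : ℝ) := by
        have h7 : (0 : ℝ) ≤ Real.log (Nat.log 2 n) := by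
          apply Real.log_nonneg
          have : 1 ≤ Nat.log 2 n := by omega
          exact_mod_cast this
        calc (Real.log (Nat.log 2 n)) ^ (3/7 : ℝ) ≤ (2 * ll n) ^ (3/7 : ℝ) :=
              Real.rpow_le_rpow h7 (by linarith) (by norm_num)
          _ = 2 ^ (3/7 : ℝ) * (ll n) ^ (3/7 : ℝ) := Real.mul_rpow (by norm_num) (by linarith)
          _ ≤ _ := by
              refine mul_le_mul_of_nonneg_right ?_ (Real.rpow_nonneg (by linarith) _)
              calc (2 : ℝ) ^ (3/7 : ℝ) ≤ 2 ^ (1 : ℝ) :=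
                    Real.rpow_le_rpow_of_exponent_le (by norm_num) (by norm_num)
                _ = 2 := Real.rpow_one 2
      rw [one_mul]
      calc V f n ≤ 2 * ‖Sc ((1/2 : ℝ) ^ (Nat.log 2 n)) f‖ := V_up g3 g4
        _ ≤ 2 * (b * (Real.log (Nat.log 2 n)) ^ (3/7 : ℝ)) :=
            mul_le_mul_of_nonneg_left g1 (by norm_num)
        _ ≤ 2 * (b * (2 * (ll n) ^ (3/7 : ℝ))) :=
            mul_le_mul_of_nonneg_left (mul_le_mul_of_nonneg_left g6 hb.le) (by norm_num)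
        _ = _ := by ring) (by
      filter_upwards [h2 μ hμ] with f hf
      have hpow : Tendsto (fun k : ℕ => 2 ^ k) atTop atTop :=
        tendsto_pow_atTop_atTop_of_one_lt (by norm_num : (1 : ℕ) < 2)
      refine hpow.frequently ?_
      refine (hf.and_eventually (((hpow.eventually (ll_atTop.eventually_ge_atTop 1))).and
        (eventually_ge_atTop 1))).mono fun k hk => ?_
      obtain ⟨g1, g2, g3⟩ := hk
      rw [one_mul, V_pow]
      refine le_trans ?_ g1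
      refine mul_le_mul_of_nonneg_left ?_ hb'.le
      refine Real.rpow_le_rpow (by linarith) ?_ (by norm_num)
      exact ll_upper g3 (by
        calc 2 = 2 ^ 1 := by norm_num
          _ ≤ 2 ^ k := Nat.pow_le_pow_right (by norm_num) g3) le_rfl)
  refine ⟨K, hK1, hK2, ?_⟩
  filter_upwards [hK] with f hf ε hε
  have := hf ε hε
  simpa only [one_mul] using this

/-- The smallest values. -/
theorem slow_const : ∃ c C : ℝ, 0 < c ∧ ∀ μ ∈ Lims, ∃ K : ℝ, c ≤ K ∧ K ≤ C ∧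
    ∀ᵐ f ∂(μ : Measure C(unitInterval, ℂ)), ∀ ε : ℝ, 0 < ε →
      (∀ᶠ n in atTop, (K - ε) * (ll n) ^ (-(1/14) : ℝ) ≤ V f n) ∧
      ∃ᶠ n in atTop, V f n ≤ (K + ε) * (ll n) ^ (-(1/14) : ℝ) := by
  obtain ⟨a, A, D, x0, y0, ha, hA, hD, hx0, hy0, ht⟩ := tails
  obtain ⟨b, hb, h1⟩ := slow_ev (A := A) ha (fun μ hμ => (ht μ hμ).2.2.1)
  obtain ⟨b', hb', h2⟩ := slow_io hD hy0 (fun μ hμ => (ht μ hμ).2.2.2)
  refine ⟨b / 8, b', by positivity, fun μ hμ => ?_⟩
  have hφ : ∀ᶠ n in atTop, 0 < (ll n) ^ (-(1/14) : ℝ) := by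
    filter_upwards [ll_atTop.eventually_ge_atTop 1] with n hn
    exact Real.rpow_pos_of_pos (by linarith) _
  obtain ⟨K, hK1, hK2, hK⟩ := const_gen (μ : Measure C(unitInterval, ℂ)) (c := -b')
    (C := -(b / 8))
    hφ (U := fun f n => (-1) * V f n) (zero_one hμ _ (-1)) (fun n => (V_meas n).const_mul (-1)) (by
      filter_upwards [h1 μ hμ] with f hf
      have hf1 : ∀ᶠ k : ℕ in atTop, b * (Real.log ((k + 1 : ℕ) : ℝ)) ^ (-(1/14) : ℝ) ≤
          ‖Sc ((1/2 : ℝ) ^ (k + 1)) f‖ := (tendsto_add_atTop_nat 1).eventually hf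
      have hf' := Mom_log_tendsto.eventually (hf1.and (eventually_ge_atTop 7))
      filter_upwards [hf', eventually_ge_atTop 2, ll_atTop.eventually_ge_atTop 1] with n hn hn2 hn3
      obtain ⟨g1, g2⟩ := hn
      obtain ⟨g3, g4⟩ := TH992.L.log2 (n := n) (by omega)
      have g5 := ll_lower g2 g3
      have hk7 : (7 : ℝ) ≤ (Nat.log 2 n : ℕ) := by exact_mod_cast g2
      have g6 : Real.log ((Nat.log 2 n + 1 : ℕ) : ℝ) ≤ 4 * ll n := by
        have h7 : Real.log ((Nat.log 2 n + 1 : ℕ) : ℝ) ≤ Real.log (((Nat.log 2 n : ℕ) : ℝ) ^ 2) := by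
          apply Real.log_le_log (by positivity)
          push_cast
          nlinarith
        rw [Real.log_pow] at h7
        push_cast at h7 ⊢
        linarith
      have g7 : 0 < Real.log ((Nat.log 2 n + 1 : ℕ) : ℝ) := by
        apply Real.log_pos
        push_cast
        linarith
      have g8 : (1/4 : ℝ) * (ll n) ^ (-(1/14) : ℝ) ≤
          (Real.log ((Nat.log 2 n + 1 : ℕ) : ℝ)) ^ (-(1/14) : ℝ) := by
        calc (1/4 : ℝ) * (ll n) ^ (-(1/14) : ℝ)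
            ≤ 4 ^ (-(1/14) : ℝ) * (ll n) ^ (-(1/14) : ℝ) := by
              refine mul_le_mul_of_nonneg_right ?_ (Real.rpow_nonneg (by linarith) _)
              calc (1/4 : ℝ) = 4 ^ (-1 : ℝ) := by rw [Real.rpow_neg_one]; norm_num
                _ ≤ 4 ^ (-(1/14) : ℝ) :=
                  Real.rpow_le_rpow_of_exponent_le (by norm_num) (by norm_num)
          _ = (4 * ll n) ^ (-(1/14) : ℝ) := (Real.mul_rpow (by norm_num) (by linarith)).symm
          _ ≤ _ := Real.rpow_le_rpow_of_nonpos g7 g6 (by norm_num)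
      have g9 := V_low (f := f) g3 g4
      have g10 := mul_le_mul_of_nonneg_left g8 hb.le
      rw [neg_one_mul, neg_mul, neg_le_neg_iff]
      linarith) (by
      filter_upwards [h2 μ hμ] with f hf
      have hpow : Tendsto (fun k : ℕ => 2 ^ k) atTop atTop :=
        tendsto_pow_atTop_atTop_of_one_lt (by norm_num : (1 : ℕ) < 2)
      refine hpow.frequently ?_
      refine (hf.and_eventually (((hpow.eventually (ll_atTop.eventually_ge_atTop 1))).and
        (eventually_ge_atTop 1))).mono fun k hk => ?_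
      obtain ⟨g1, g2, g3⟩ := hk
      rw [neg_one_mul, neg_mul, neg_le_neg_iff, V_pow]
      refine g1.trans ?_
      refine mul_le_mul_of_nonneg_left ?_ hb'.le
      refine Real.rpow_le_rpow_of_nonpos (by linarith) ?_ (by norm_num)
      exact ll_upper g3 (by
        calc 2 = 2 ^ 1 := by norm_num
          _ ≤ 2 ^ k := Nat.pow_le_pow_right (by norm_num) g3) le_rfl)
  refine ⟨-K, by linarith, by linarith, ?_⟩
  filter_upwards [hK] with f hf ε hε
  obtain ⟨g1, g2⟩ := hf ε hε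
  constructor
  · filter_upwards [g1] with n hn
    have e : (-K - ε) * (ll n) ^ (-(1/14) : ℝ) = -((K + ε) * (ll n) ^ (-(1/14) : ℝ)) := by ring
    rw [e]
    linarith
  · refine g2.mono fun n hn => ?_
    have e : (-K + ε) * (ll n) ^ (-(1/14) : ℝ) = -((K - ε) * (ll n) ^ (-(1/14) : ℝ)) := by ring
    rw [e]
    linarith

end Pool.Agent.Q218.LZ
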