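import Pool.Agent.Q218.LZ.Disc
import Pool.Agent.Q218.LL.Germ

/-!
The tails of the maximal distance from the origin under the limit laws.
-/

set_option autoImplicit false

namespace Pool.Agent.Q218.LZ

open H984H H974 Finset H342P H984P MeasureTheory Filter Topology
open Pool.Agent.Q218.ZO Pool.Agent.Q218.DC Pool.Agent.Q218.LL

/-- The curve at the times `k / n`. -/
theorem curve_at {n k : ℕ} (hn : 1 ≤ n) (hk : k ≤ n) (ω : Conf) :
    ∃ t : unitInterval, (t : ℝ) = (k : ℝ) / n ∧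
      curve n ω t = (((n : ℝ) ^ (-(4/7) : ℝ) : ℝ) : ℂ) * gam ω k := by
  have hn0 : (0 : ℝ) < n := by exact_mod_cast hn
  have ht : (k : ℝ) / n ∈ unitInterval := by
    refine ⟨by positivity, ?_⟩
    rw [div_le_one hn0]
    exact_mod_cast hk
  refine ⟨⟨(k : ℝ) / n, ht⟩, rfl, ?_⟩
  have htn : ((⟨(k : ℝ) / n, ht⟩ : unitInterval) : ℝ) * n = k := by
    show (k : ℝ) / n * n = k
    field_simp
  unfold curve
  rcases Nat.lt_or_ge k n with h | h
  · rw [H984N.pl_seg h (by rw [htn]) (by rw [htn]; linarith), htn]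
    simp
  · have hkn : k = n := le_antisymm hk h
    have h1 : (⟨(k : ℝ) / n, ht⟩ : unitInterval) = 1 := by
      apply Subtype.ext
      show (k : ℝ) / n = 1
      rw [hkn]
      exact div_self hn0.ne'
    rw [h1, H984N.pl_one, hkn]

/-- The maximum norm of the rescaled curve. -/
theorem norm_curve {n : ℕ} (hn : 1 ≤ n) (ω : Conf) :
    ‖curve n ω‖ = reach n ω / (n : ℝ) ^ (4/7 : ℝ) := by
  have hn0 : (0 : ℝ) < n := by exact_mod_cast hn
  have hN : 0 < (n : ℝ) ^ (4/7 : ℝ) := by positivity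
  have hneg : (n : ℝ) ^ (-(4/7) : ℝ) = ((n : ℝ) ^ (4/7 : ℝ))⁻¹ := Real.rpow_neg hn0.le _
  have hr0 : 0 ≤ reach n ω := (norm_nonneg _).trans (norm_gam_le n ω)
  apply le_antisymm
  · have h0 : dist (H984N.pl n (fun k => (((n : ℝ) ^ (-(4/7) : ℝ) : ℝ) : ℂ) * gam ω k))
        (H984N.pl n (fun _ => 0)) ≤ reach n ω / (n : ℝ) ^ (4/7 : ℝ) := by
      refine pl_dist (by positivity) fun k hk => ?_
      rw [dist_zero_right, norm_mul, Complex.norm_real, Real.norm_eq_abs,
        abs_of_nonneg (by positivity), hneg, inv_mul_eq_div]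
      exact div_le_div_of_nonneg_right
        ((norm_gam_le k ω).trans (H984H.reach_mono ω hk)) hN.le
    have h1 : H984N.pl n (fun _ => (0 : ℂ)) = 0 := by
      ext t
      rw [H984N.pl_apply']
      simp
    rw [h1, dist_zero_right] at h0
    exact h0
  · obtain ⟨k, hk, hk2⟩ := Disp_exists_reach ω n
    obtain ⟨t, -, ht⟩ := curve_at hn hk ω
    have h1 := (curve n ω).norm_coe_le_norm t
    rw [ht, norm_mul, Complex.norm_real, Real.norm_eq_abs, abs_of_nonneg (by positivity), hneg,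
      hk2, inv_mul_eq_div] at h1
    exact h1

section lims

variable {φ : ℕ → ℕ} {μ : ProbabilityMeasure C(unitInterval, ℂ)}

theorem open_le (hμ : Tendsto (fun i => lawH (φ i)) atTop (𝓝 μ)) {G : Set C(unitInterval, ℂ)}
    (hG : IsOpen G) {δ : ℝ} (hδ : 0 ≤ δ)
    (h : ∀ᶠ i in atTop, perc.real {ω | curve (φ i) ω ∈ G} ≤ δ) :
    (μ : Measure C(unitInterval, ℂ)).real G ≤ δ := by
  have h1 := limit_closedC hμ hG.isClosed_compl (ε := δ) (by
    filter_upwards [h] with i hi
    rw [compl_compl, lawH_apply _ hG.measurableSet]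
    exact ENNReal.ofReal_le_ofReal hi)
  rw [compl_compl] at h1
  rw [measureReal_def]
  exact ENNReal.toReal_le_of_le_ofReal hδ h1

theorem closed_ge (hμ : Tendsto (fun i => lawH (φ i)) atTop (𝓝 μ)) {F : Set C(unitInterval, ℂ)}
    (hF : IsClosed F) {δ : ℝ}
    (h : ∀ᶠ i in atTop, δ ≤ perc.real {ω | curve (φ i) ω ∈ F}) :
    δ ≤ (μ : Measure C(unitInterval, ℂ)).real F := by
  have hle : δ ≤ 1 := by
    obtain ⟨i, hi⟩ := h.exists
    exact hi.trans measureReal_le_one
  have h1 := open_le hμ hF.isOpen_compl (δ := 1 - δ) (by linarith) (by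
    filter_upwards [h] with i hi
    have e : {ω | curve (φ i) ω ∈ Fᶜ} = {ω | curve (φ i) ω ∈ F}ᶜ := rfl
    have mF : MeasurableSet {ω | curve (φ i) ω ∈ F} := (curve_meas _) hF.measurableSet
    rw [e, probReal_compl_eq_one_sub mF]
    linarith)
  rw [probReal_compl_eq_one_sub hF.measurableSet] at h1
  linarith

end lims

/-- **Tails of the limit laws.** -/
theorem tails : ∃ a A D x0 y0 : ℝ, 0 < a ∧ 0 < A ∧ 0 < D ∧ 1 ≤ x0 ∧ 0 < y0 ∧ ∀ μ ∈ Lims,
    (∀ x : ℝ, 0 < x → (μ : Measure C(unitInterval, ℂ)).real {f | x < ‖f‖} ≤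
      A * Real.exp (-(a * x ^ (7/3 : ℝ)))) ∧
    (∀ x : ℝ, x0 ≤ x → Real.exp (-(D * x ^ (7/3 : ℝ))) ≤
      (μ : Measure C(unitInterval, ℂ)).real {f | x ≤ ‖f‖}) ∧
    (∀ y : ℝ, 0 < y → (μ : Measure C(unitInterval, ℂ)).real {f | ‖f‖ < y} ≤
      A * Real.exp (-(a / y ^ 14))) ∧
    (∀ y : ℝ, 0 < y → y ≤ y0 → Real.exp (-(D / y ^ 14)) ≤
      (μ : Measure C(unitInterval, ℂ)).real {f | ‖f‖ ≤ y}) := by
  obtain ⟨⟨c0, hc0, hL⟩, ⟨C0, hC0, hU⟩, -⟩ := Results.MP_6c8efb_pr.Displacement.inputs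
  obtain ⟨a, A, ha, hA, hup⟩ := TH992.L.up_tail hc0 hC0 hL hU
  obtain ⟨D1, x0, hD1, hx0, hfast⟩ := fast_low hC0 hU
  obtain ⟨l, hl, hrt⟩ := TH992.L.reach_tail hC0 hU
  obtain ⟨D2, y0, hD2, hy0, hslow⟩ := slow_low hc0 hL hC0 hU
  obtain ⟨a2, ha2⟩ : ∃ a2 : ℝ, a2 = 1 / ((20 : ℝ) ^ 14 * l ^ 8) := ⟨_, rfl⟩
  have ha20 : 0 < a2 := by rw [ha2]; positivity
  refine ⟨min a a2, max A 9, max D1 D2, x0, y0, lt_min ha ha20, lt_max_of_lt_left hA,
    lt_max_of_lt_left hD1, hx0, hy0, ?_⟩
  rintro μ ⟨φ, hφ, hμ⟩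
  have hev : ∀ᶠ i in atTop, 1 ≤ φ i := hφ.eventually_ge_atTop 1
  refine ⟨fun x hx => ?_, fun x hx => ?_, fun y hy => ?_, fun y hy hyy => ?_⟩
  · have h1 := open_le hμ (G := {f | x < ‖f‖}) (isOpen_lt continuous_const continuous_norm)
      (δ := A * Real.exp (-(a * x ^ (7/3 : ℝ)))) (by positivity) (by
        filter_upwards [hev] with i hi
        refine le_trans (measureReal_mono ?_ (measure_ne_top _ _)) (hup (φ i) x hi hx)
        intro ω hω
        have hω' : x < ‖curve (φ i) ω‖ := hω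
        have hn0 : (0 : ℝ) < φ i := by exact_mod_cast hi
        rw [norm_curve hi, lt_div_iff₀ (by positivity)] at hω'
        exact hω'.le)
    refine h1.trans ?_
    apply mul_le_mul (le_max_left _ _) _ (Real.exp_nonneg _) (by positivity)
    apply Real.exp_le_exp.2
    have : min a a2 * x ^ (7/3 : ℝ) ≤ a * x ^ (7/3 : ℝ) :=
      mul_le_mul_of_nonneg_right (min_le_left _ _) (by positivity)
    linarith
  · have hx' : 0 < x := by linarith
    have h1 := closed_ge hμ (F := {f | x ≤ ‖f‖}) (isClosed_le continuous_const continuous_norm)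
      (δ := Real.exp (-(D1 * x ^ (7/3 : ℝ)))) (by
        filter_upwards [hev, hφ.eventually (hfast x hx)] with i hi hi2
        refine hi2.trans (measureReal_mono ?_ (measure_ne_top _ _))
        intro ω hω
        have hω' : x * (φ i : ℝ) ^ (4/7 : ℝ) ≤ reach (φ i) ω := hω
        have hn0 : (0 : ℝ) < φ i := by exact_mod_cast hi
        show x ≤ ‖curve (φ i) ω‖
        rw [norm_curve hi, le_div_iff₀ (by positivity)]
        exact hω')
    refine le_trans ?_ h1
    apply Real.exp_le_exp.2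
    have : D1 * x ^ (7/3 : ℝ) ≤ max D1 D2 * x ^ (7/3 : ℝ) :=
      mul_le_mul_of_nonneg_right (le_max_left _ _) (by positivity)
    linarith
  · have h1 := open_le hμ (G := {f | ‖f‖ < y}) (isOpen_lt continuous_norm continuous_const)
      (δ := 9 * Real.exp (-(a2 / y ^ 14))) (by positivity) (by
        have hreal : Tendsto (fun i => y * (φ i : ℝ) ^ (4/7 : ℝ)) atTop atTop :=
          ((tendsto_rpow_atTop (by norm_num)).comp
            (tendsto_natCast_atTop_atTop.comp hφ)).const_mul_atTop hy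
        filter_upwards [hev, hreal.eventually_ge_atTop (1/3)] with i hi hi2
        have hn0 : (0 : ℝ) < φ i := by exact_mod_cast hi
        have hu0 : 0 < (20 * y) ^ (7/4 : ℝ) := by positivity
        have h2 := hrt (φ i) (y * (φ i : ℝ) ^ (4/7 : ℝ)) (1 / (20 * y) ^ (7/4 : ℝ)) hi2
          (by positivity) (by
            have e3 : (20 * (y * (φ i : ℝ) ^ (4/7 : ℝ))) ^ (7/4 : ℝ) =
                (20 * y) ^ (7/4 : ℝ) * φ i := by
              rw [← mul_assoc, Real.mul_rpow (by positivity) (by positivity),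
                ← Real.rpow_mul hn0.le, show (4/7 : ℝ) * (7/4) = 1 by norm_num, Real.rpow_one]
            rw [e3, ← mul_assoc, one_div_mul_cancel hu0.ne', one_mul])
        have e : (-(1 / (20 * y) ^ (7/4 : ℝ) / l) ^ (8 : ℕ)) = -(a2 / y ^ 14) := by
          have e1 : ((20 * y) ^ (7/4 : ℝ)) ^ (8 : ℕ) = (20 : ℝ) ^ 14 * y ^ 14 := by
            rw [← Real.rpow_natCast, ← Real.rpow_mul (by positivity),
              show (7/4 : ℝ) * ((8 : ℕ) : ℝ) = ((14 : ℕ) : ℝ) by norm_num, Real.rpow_natCast,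
              mul_pow]
          rw [ha2, div_pow, div_pow, e1, one_pow]
          field_simp
        rw [e] at h2
        refine le_trans (measureReal_mono ?_ (measure_ne_top _ _)) h2
        intro ω hω
        have hω' : ‖curve (φ i) ω‖ < y := hω
        rw [norm_curve hi, div_lt_iff₀ (by positivity)] at hω'
        exact hω'.le)
    refine h1.trans ?_
    apply mul_le_mul (le_max_right _ _) _ (Real.exp_nonneg _) (by positivity)
    apply Real.exp_le_exp.2
    have : min a a2 / y ^ 14 ≤ a2 / y ^ 14 :=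
      div_le_div_of_nonneg_right (min_le_right _ _) (by positivity)
    linarith
  · have h1 := closed_ge hμ (F := {f | ‖f‖ ≤ y}) (isClosed_le continuous_norm continuous_const)
      (δ := Real.exp (-(D2 / y ^ 14))) (by
        filter_upwards [hev, hφ.eventually (hslow y hy hyy)] with i hi hi2
        refine hi2.trans (measureReal_mono ?_ (measure_ne_top _ _))
        intro ω hω
        have hω' : reach (φ i) ω ≤ y * (φ i : ℝ) ^ (4/7 : ℝ) := hω
        have hn0 : (0 : ℝ) < φ i := by exact_mod_cast hi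
        show ‖curve (φ i) ω‖ ≤ y
        rw [norm_curve hi, div_le_iff₀ (by positivity)]
        exact hω')
    refine le_trans ?_ h1
    apply Real.exp_le_exp.2
    have : D2 / y ^ 14 ≤ max D1 D2 / y ^ 14 :=
      div_le_div_of_nonneg_right (le_max_right _ _) (by positivity)
    linarith

end Pool.Agent.Q218.LZ
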